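import Pool.Agent.Y774.SM.Glob
import Pool.Agent.Y774.MD.Main

/-!
# The squared modulus criterion over number fields
-/

set_option autoImplicit false

namespace Pool.Agent.Y774.SM

open Filter Topology MeasureTheory Finset Polynomial NumberField IsDedekindDomain
  Pool.Agent.Y774.MD Pool.Agent.TH958.BV Pool.Agent.H921R2.TatePole
open scoped ComplexConjugate

variable {K : Type} [Field K] [NumberField K]

/-- The reflection at the line `Re s = w/2 + 1`. -/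
noncomputable def reflect (w : ℝ) (s : ℂ) : ℂ := ((w + 2 : ℝ) : ℂ) - conj s

/-- The point `w/2 + 1 + iτ`. -/
noncomputable def edgePt (w τ : ℝ) : ℂ := ((w / 2 + 1 : ℝ) : ℂ) + τ * Complex.I

lemma edgePt_eq (w τ : ℝ) : edgePt w τ = ((w / 2 : ℝ) : ℂ) + (1 + τ * Complex.I) := by
  unfold edgePt
  push_cast
  ring

lemma reflect_eq (w : ℝ) (s : ℂ) :
    reflect w (((w / 2 : ℝ) : ℂ) + s) = ((w / 2 : ℝ) : ℂ) + rfl' s := by
  unfold reflect rfl'
  rw [map_add, Complex.conj_ofReal]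
  push_cast
  ring

/-- The factors have no zeros in `|z| < Nv^(-w/2-1)`. -/
def NoPoles (B : HeightOneSpectrum (𝓞 K) → ℂ[X]) (w : ℝ) : Prop :=
  ∀ (v : HeightOneSpectrum (𝓞 K)) (z : ℂ), (B v).eval z = 0 →
    (Ideal.absNorm v.asIdeal : ℝ) ^ (-(w / 2 + 1)) ≤ ‖z‖

lemma NoPoles.gp {B : HeightOneSpectrum (𝓞 K) → ℂ[X]} {w : ℝ} (h : NoPoles B w) {p : ℕ}
    (hp : p.Prime) (z : ℂ) (hz : (GP B w p).eval z = 0) : 1 / (p : ℝ) ≤ ‖z‖ := by
  rw [GP_eval B w hp, prod_eq_zero_iff] at hz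
  obtain ⟨v, -, hv⟩ := hz
  have h1 := h v.1 _ hv
  have hq : 0 < nm v.1 := nm_pos v.1
  have hqr : (0 : ℝ) < nm v.1 := by exact_mod_cast hq
  have hp0 : (0 : ℝ) < p := by exact_mod_cast hp.pos
  have hnm : (Ideal.absNorm v.1.asIdeal : ℝ) = nm v.1 := rfl
  rw [hnm, norm_mul, norm_pow, Complex.norm_real, Real.norm_of_nonneg (by positivity), neg_add,
    Real.rpow_add hqr] at h1
  have h2 : (nm v.1 : ℝ) ^ (-1 : ℝ) ≤ ‖z‖ ^ deg v.1 :=
    le_of_mul_le_mul_left h1 (by positivity)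
  obtain ⟨h3, h4⟩ := nm_eq v.1
  have hb : ((below v.1 : Nat.Primes) : ℕ) = p := by
    rw [v.2]
  rw [hb] at h3
  rw [h3, Real.rpow_neg_one] at h2
  push_cast at h2
  rw [← inv_pow] at h2
  rw [one_div]
  exact le_of_pow_le_pow_left₀ (by omega) (norm_nonneg _) h2

lemma shift_ae {B : HeightOneSpectrum (𝓞 K) → ℂ[X]} {w : ℝ} {N : ℕ} (hB : IsTempered B w N)
    (U : Set ℂ) (G : ℂ → ℂ) :
    (∀ᵐ τ : ℝ, edgePt w τ ∈ U → G (edgePt w τ) =
      ((limUnder (𝓝[>] (0 : ℝ)) (fun σ : ℝ => ‖LFun B (edgePt w τ + σ)‖) : ℝ) : ℂ) ^ 2) ↔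
    ∀ᵐ τ : ℝ, (1 + τ * Complex.I : ℂ) ∈ {s : ℂ | ((w / 2 : ℝ) : ℂ) + s ∈ U} →
      G (((w / 2 : ℝ) : ℂ) + (1 + τ * Complex.I)) = ((eabs (GP B w) τ : ℝ) : ℂ) ^ 2 := by
  have h1 : ∀ τ, limUnder (𝓝[>] (0 : ℝ)) (fun σ : ℝ => ‖LFun B (edgePt w τ + σ)‖) =
      eabs (GP B w) τ := fun τ => hB.eabs_eq τ
  simp only [h1]
  simp only [edgePt_eq, Set.mem_ofPred_eq]

theorem mero_iff_K {B : HeightOneSpectrum (𝓞 K) → ℂ[X]} {w : ℝ} {N : ℕ} (hB : IsTempered B w N)
    {U : Set ℂ} (hU : IsOpen U) (hsym : ∀ s ∈ U, reflect w s ∈ U) :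
    (∃ F : ℂ → ℂ, MeromorphicOn F (U ∪ {s | w / 2 + 1 < s.re}) ∧
      ∀ s : ℂ, w / 2 + 1 < s.re → F s = LFun B s) ↔
    ∃ G : ℂ → ℂ, MeromorphicOn G U ∧ ∀ᵐ τ : ℝ, edgePt w τ ∈ U → G (edgePt w τ) =
      ((limUnder (𝓝[>] (0 : ℝ)) (fun σ : ℝ => ‖LFun B (edgePt w τ + σ)‖) : ℝ) : ℂ) ^ 2 := by
  obtain ⟨C₀, E₀, h₀⟩ := hB.isEuler
  set c : ℂ := ((w / 2 : ℝ) : ℂ) with hc
  have hcre : c.re = w / 2 := by rw [hc, Complex.ofReal_re]
  set U' : Set ℂ := {s | c + s ∈ U} with hU'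
  have hcont : Continuous fun s : ℂ => c + s := by fun_prop
  have hU'o : IsOpen U' := hU.preimage hcont
  have hsym' : ∀ s ∈ U', rfl' s ∈ U' := by
    intro s hs
    show c + rfl' s ∈ U
    rw [hc, ← reflect_eq]
    exact hsym _ hs
  have key := mero_iff h₀ hU'o hsym'
  constructor
  · rintro ⟨F, hF1, hF2⟩
    have hx : ∃ F : ℂ → ℂ, MeromorphicOn F (U' ∪ {s | 1 < s.re}) ∧
        ∀ s : ℂ, 1 < s.re → F s = LQ (GP B w) s := by
      refine ⟨fun s => F (c + s), fun s hs => ?_, fun s hs => ?_⟩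
      · have h1 : c + s ∈ U ∪ {s | w / 2 + 1 < s.re} := by
          rcases hs with hs | hs
          · exact Or.inl hs
          · right
            show w / 2 + 1 < (c + s).re
            rw [Complex.add_re, hcre]
            have : 1 < s.re := hs
            linarith
        exact (hF1 _ h1).comp_analyticAt (g := fun s => c + s) (by fun_prop)
      · rw [← hB.LFun_eq hs]
        refine hF2 _ ?_
        rw [Complex.add_re, Complex.ofReal_re]
        linarith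
    obtain ⟨G, hG1, hG2⟩ := key.1 hx
    refine ⟨fun s => G (s - c), fun s hs => ?_, ?_⟩
    · have h1 : s - c ∈ U' := by
        show c + (s - c) ∈ U
        rwa [add_sub_cancel]
      exact (hG1 _ h1).comp_analyticAt (g := fun s => s - c) (by fun_prop)
    · refine (shift_ae hB U (fun s => G (s - c))).2 ?_
      filter_upwards [hG2] with τ hτ h1
      have h2 := hτ h1
      simp only [← hc, add_sub_cancel_left]
      exact h2
  · rintro ⟨G, hG1, hG2⟩
    rw [shift_ae hB U G] at hG2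
    have hx : ∃ G : ℂ → ℂ, MeromorphicOn G U' ∧ ∀ᵐ τ : ℝ, (1 + τ * Complex.I : ℂ) ∈ U' →
        G (1 + τ * Complex.I) = ((eabs (GP B w) τ : ℝ) : ℂ) ^ 2 :=
      ⟨fun s => G (c + s), fun s hs =>
        (hG1 (c + s) hs).comp_analyticAt (g := fun s => c + s) (by fun_prop), hG2⟩
    obtain ⟨F, hF1, hF2⟩ := key.2 hx
    refine ⟨fun s => F (s - c), fun s hs => ?_, fun s hs => ?_⟩
    · have h1 : s - c ∈ U' ∪ {s | 1 < s.re} := by
        rcases hs with hs | hs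
        · left
          show c + (s - c) ∈ U
          rwa [add_sub_cancel]
        · right
          show 1 < (s - c).re
          rw [Complex.sub_re, hcre]
          have : w / 2 + 1 < s.re := hs
          linarith
      exact (hF1 _ h1).comp_analyticAt (g := fun s => s - c) (by fun_prop)
    · have h1 : 1 < (s - c).re := by
        rw [Complex.sub_re, hcre]
        linarith
      have h2 : ((w / 2 : ℝ) : ℂ) + (s - c) = s := by
        rw [← hc]
        ring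
      show F (s - c) = LFun B s
      rw [hF2 _ h1, ← hB.LFun_eq h1, h2]

theorem holo_iff_K {B : HeightOneSpectrum (𝓞 K) → ℂ[X]} {w : ℝ} {N : ℕ} (hB : IsTempered B w N)
    (hnp : NoPoles B w) {U : Set ℂ} (hU : IsOpen U) (hsym : ∀ s ∈ U, reflect w s ∈ U) :
    (∃ F : ℂ → ℂ, DifferentiableOn ℂ F (U ∪ {s | w / 2 + 1 < s.re}) ∧
      ∀ s : ℂ, w / 2 + 1 < s.re → F s = LFun B s) ↔
    ∃ G : ℂ → ℂ, DifferentiableOn ℂ G U ∧ ∀ᵐ τ : ℝ, edgePt w τ ∈ U → G (edgePt w τ) =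
      ((limUnder (𝓝[>] (0 : ℝ)) (fun σ : ℝ => ‖LFun B (edgePt w τ + σ)‖) : ℝ) : ℂ) ^ 2 := by
  obtain ⟨C₀, E₀, h₀⟩ := hB.isEuler
  set c : ℂ := ((w / 2 : ℝ) : ℂ) with hc
  have hcre : c.re = w / 2 := by rw [hc, Complex.ofReal_re]
  set U' : Set ℂ := {s | c + s ∈ U} with hU'
  have hcont : Continuous fun s : ℂ => c + s := by fun_prop
  have hU'o : IsOpen U' := hU.preimage hcont
  have hsym' : ∀ s ∈ U', rfl' s ∈ U' := by
    intro s hs
    show c + rfl' s ∈ U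
    rw [hc, ← reflect_eq]
    exact hsym _ hs
  have key := holo_iff h₀ (fun p hp z hz => hnp.gp hp z hz) hU'o hsym'
  have dc : ∀ {f : ℂ → ℂ} {A A' : Set ℂ} (a : ℂ), DifferentiableOn ℂ f A → (∀ s ∈ A', a + s ∈ A) →
      DifferentiableOn ℂ (fun s => f (a + s)) A' := fun a hf h =>
    hf.comp (f := fun s => a + s) (by fun_prop) h
  constructor
  · rintro ⟨F, hF1, hF2⟩
    have hx : ∃ F : ℂ → ℂ, DifferentiableOn ℂ F (U' ∪ {s | 1 < s.re}) ∧
        ∀ s : ℂ, 1 < s.re → F s = LQ (GP B w) s := by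
      refine ⟨fun s => F (c + s), dc c hF1 fun s hs => ?_, fun s hs => ?_⟩
      · rcases hs with hs | hs
        · exact Or.inl hs
        · right
          show w / 2 + 1 < (c + s).re
          rw [Complex.add_re, hcre]
          have : 1 < s.re := hs
          linarith
      · rw [← hB.LFun_eq hs]
        refine hF2 _ ?_
        rw [Complex.add_re, Complex.ofReal_re]
        linarith
    obtain ⟨G, hG1, hG2⟩ := key.1 hx
    refine ⟨fun s => G (-c + s), dc (-c) hG1 fun s hs => ?_, ?_⟩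
    · show c + (-c + s) ∈ U
      rwa [add_neg_cancel_left]
    · refine (shift_ae hB U (fun s => G (-c + s))).2 ?_
      filter_upwards [hG2] with τ hτ h1
      have h2 := hτ h1
      simp only [← hc, neg_add_cancel_left]
      exact h2
  · rintro ⟨G, hG1, hG2⟩
    rw [shift_ae hB U G] at hG2
    have hx : ∃ G : ℂ → ℂ, DifferentiableOn ℂ G U' ∧ ∀ᵐ τ : ℝ, (1 + τ * Complex.I : ℂ) ∈ U' →
        G (1 + τ * Complex.I) = ((eabs (GP B w) τ : ℝ) : ℂ) ^ 2 :=
      ⟨fun s => G (c + s), dc c hG1 fun s hs => hs, hG2⟩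
    obtain ⟨F, hF1, hF2⟩ := key.2 hx
    refine ⟨fun s => F (-c + s), dc (-c) hF1 fun s hs => ?_, fun s hs => ?_⟩
    · rcases hs with hs | hs
      · left
        show c + (-c + s) ∈ U
        rwa [add_neg_cancel_left]
      · right
        show 1 < (-c + s).re
        rw [Complex.add_re, Complex.neg_re, hcre]
        have : w / 2 + 1 < s.re := hs
        linarith
    · have h1 : 1 < (-c + s).re := by
        rw [Complex.add_re, Complex.neg_re, hcre]
        linarith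
      have h2 : ((w / 2 : ℝ) : ℂ) + (-c + s) = s := by
        rw [← hc]
        ring
      show F (-c + s) = LFun B s
      rw [hF2 _ h1, ← hB.LFun_eq h1, h2]

/-- The boundary values exist. -/
theorem edge_K {B : HeightOneSpectrum (𝓞 K) → ℂ[X]} {w : ℝ} {N : ℕ} (hB : IsTempered B w N) :
    ∀ᵐ τ : ℝ, 0 < limUnder (𝓝[>] (0 : ℝ)) (fun σ : ℝ => ‖LFun B (edgePt w τ + σ)‖) ∧
      Tendsto (fun σ : ℝ => ‖LFun B (edgePt w τ + σ)‖) (𝓝[>] 0)
        (𝓝 (limUnder (𝓝[>] (0 : ℝ)) (fun σ : ℝ => ‖LFun B (edgePt w τ + σ)‖))) := by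
  obtain ⟨C₀, E₀, h₀⟩ := hB.isEuler
  have h1 : ∀ τ, limUnder (𝓝[>] (0 : ℝ)) (fun σ : ℝ => ‖LFun B (edgePt w τ + σ)‖) =
      eabs (GP B w) τ := fun τ => hB.eabs_eq τ
  simp only [h1]
  filter_upwards [h₀.edge'] with τ hτ
  refine ⟨hτ.1.1, hτ.1.2.congr' ?_⟩
  filter_upwards [self_mem_nhdsWithin] with σ hσ
  have hσ0 : (0 : ℝ) < σ := hσ
  have h3 : edgePt w τ + σ = ((w / 2 : ℝ) : ℂ) + (1 + σ + τ * Complex.I) := by
    rw [edgePt_eq]
    ring
  rw [h3, hB.LFun_eq]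
  simpa using hσ0

end Pool.Agent.Y774.SM
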