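import Pool.Agent.Y774.SM.Local

/-!
# Continuation and the squared modulus on the edge
-/

set_option autoImplicit false

namespace Pool.Agent.Y774.SM

open Filter Topology MeasureTheory Finset Pool.Agent.W350.Edge Polynomial Pool.Agent.Y774.MD
open scoped ComplexConjugate

/-- The reflection at the edge. -/
noncomputable def rfl' (s : ℂ) : ℂ := 2 - conj s

lemma rfl'_rfl' (s : ℂ) : rfl' (rfl' s) = s := by
  unfold rfl'
  rw [map_sub, Complex.conj_conj]
  have : (conj (2 : ℂ)) = 2 := by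
    have := Complex.conj_ofNat 2
    exact this
  rw [this]
  ring

lemma rfl'_re (s : ℂ) : (rfl' s).re = 2 - s.re := by
  unfold rfl'
  simp

lemma rfl'_line (τ : ℝ) : rfl' (1 + τ * Complex.I) = 1 + τ * Complex.I := by
  unfold rfl'
  apply Complex.ext
  · simp
    norm_num
  · simp

lemma continuous_rfl' : Continuous rfl' := continuous_const.sub Complex.continuous_conj

lemma rfl'_line' {s : ℂ} (hs : s.re = 1) : rfl' s = s := by
  have h1 : s = 1 + (s.im : ℂ) * Complex.I := by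
    apply Complex.ext
    · simp [hs]
    · simp
  rw [h1, rfl'_line]

lemma diff_refl {f : ℂ → ℂ} {s : ℂ} (hf : DifferentiableAt ℂ f (rfl' s)) :
    DifferentiableAt ℂ (fun z => conj (f (rfl' z))) s := by
  have h1 : DifferentiableAt ℂ (fun w => f (2 - w)) (conj s) := by
    refine DifferentiableAt.comp (g := f) (f := fun w : ℂ => 2 - w) (conj s) hf ?_
    fun_prop
  have h2 := h1.conj_conj
  rw [Complex.conj_conj] at h2
  exact h2

lemma analytic_refl {f : ℂ → ℂ} {s : ℂ} (hf : AnalyticAt ℂ f (rfl' s)) :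
    AnalyticAt ℂ (fun z => conj (f (rfl' z))) s := by
  rw [Complex.analyticAt_iff_eventually_differentiableAt] at hf ⊢
  filter_upwards [continuous_rfl'.continuousAt.eventually hf] with z hz
  exact diff_refl hz

lemma rfl'_ne {s : ℂ} : Tendsto rfl' (𝓝[≠] s) (𝓝[≠] (rfl' s)) := by
  refine tendsto_nhdsWithin_iff.2 ⟨(continuous_rfl'.tendsto s).mono_left nhdsWithin_le_nhds, ?_⟩
  filter_upwards [self_mem_nhdsWithin] with z hz h2
  refine hz ?_
  have h3 : rfl' z = rfl' s := h2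
  have h4 := congrArg rfl' h3
  rwa [rfl'_rfl', rfl'_rfl'] at h4

lemma mero_refl {f : ℂ → ℂ} {s : ℂ} (hf : MeromorphicAt f (rfl' s)) :
    MeromorphicAt (fun z => conj (f (rfl' z))) s := by
  obtain ⟨n, hn⟩ := hf
  refine ⟨n, ?_⟩
  have h1 := analytic_refl hn
  have h2 : (fun z => (z - s) ^ n • conj (f (rfl' z))) =
      fun z => (-1 : ℂ) ^ n * conj ((rfl' z - rfl' s) ^ n • f (rfl' z)) := by
    funext z
    rw [smul_eq_mul, smul_eq_mul, map_mul, map_pow]
    have h3 : conj (rfl' z - rfl' s) = -(z - s) := by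
      unfold rfl'
      simp
    rw [h3, neg_pow (z - s), ← mul_assoc, ← mul_assoc, ← mul_pow]
    norm_num
  rw [h2]
  exact analyticAt_const.mul h1

/-- Local almost everywhere statements. -/
lemma ae_of_local {V : Set ℝ} {Q : ℝ → Prop}
    (h : ∀ x ∈ V, ∃ r > 0, ∀ᵐ τ : ℝ, |τ - x| < r → Q τ) : ∀ᵐ τ : ℝ, τ ∈ V → Q τ := by
  rw [ae_iff]
  refine measure_null_of_locally_null _ fun x hx => ?_
  have hxV : x ∈ V := by
    simp only [Classical.not_imp, Set.mem_ofPred_eq] at hx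
    exact hx.1
  obtain ⟨r, hr, h1⟩ := h x hxV
  refine ⟨{τ | ¬(|τ - x| < r → Q τ)} , ?_, ae_iff.1 h1⟩
  rw [mem_nhdsWithin]
  refine ⟨Metric.ball x r, Metric.isOpen_ball, Metric.mem_ball_self hr, ?_⟩
  rintro τ ⟨h2, h3⟩
  simp only [Classical.not_imp, Set.mem_ofPred_eq] at h3 ⊢
  exact ⟨by simpa [Real.dist_eq] using h2, h3.2⟩

variable {P : ℕ → ℂ[X]} {D : ℕ} {θ C κ : ℝ} {E : Finset ℕ}

lemma fac_ne_punctured (h : IsEuler P D θ C E) (s₀ : ℂ) :
    ∀ᶠ s in 𝓝[≠] s₀, ∀ p ∈ E.filter Nat.Prime, fac P p s ≠ 0 := by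
  rw [eventually_all_finset]
  intro p hp
  have h1 := eventually_ne (h.ne p (mem_filter.1 hp).2) (mem_filter.1 hp).2.two_le 0 s₀
  filter_upwards [h1] with s hs
  unfold fac
  refine inv_ne_zero ?_
  simpa using hs

lemma LQ_ne (h : IsEuler P D θ C E) {s : ℂ} (hs : 1 < s.re)
    (hf : ∀ p ∈ E.filter Nat.Prime, fac P p s ≠ 0) : LQ P s ≠ 0 := by
  rw [LQ_eq h hs]
  refine mul_ne_zero ?_ (Complex.exp_ne_zero _)
  unfold Bf
  exact prod_ne_zero_iff.2 hf

lemma analytic_expo (h : IsEuler P D θ C E) {s : ℂ} (hs : 1 < s.re) :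
    AnalyticAt ℂ (fun s => Complex.exp (MP (cc P E) (s - 1) + rho P E s)) s := by
  obtain ⟨κ, hκ0, hκ⟩ : ∃ κ : ℝ, 0 < κ ∧ θ + κ < 1 / 2 :=
    ⟨(1 / 2 - θ) / 2, by have := h.hθ; linarith, by have := h.hθ; linarith⟩
  have hρ : AnalyticAt ℂ (rho P E) s := by
    refine (differentiableOn_rho h hκ).analyticAt
      ((isOpen_lt continuous_const Complex.continuous_re).mem_nhds ?_)
    show 1 - κ < s.re
    linarith
  have hU : IsOpen {z : ℂ | 0 < z.re} := isOpen_lt continuous_const Complex.continuous_re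
  have hHP : DifferentiableOn ℂ (HP (cc P E)) {z : ℂ | 0 < z.re} := fun z hz =>
    (hasDerivAt_HP h.block hz).differentiableAt.differentiableWithinAt
  have hMP : AnalyticAt ℂ (MP (cc P E)) (s - 1) := by
    have hs1 : s - 1 ∈ {z : ℂ | 0 < z.re} := by
      show 0 < (s - 1).re
      rw [Complex.sub_re, Complex.one_re]
      linarith
    have h1 : AnalyticAt ℂ (deriv (HP (cc P E))) (s - 1) :=
      (hHP.analyticAt (hU.mem_nhds hs1)).deriv
    refine h1.congr ?_
    filter_upwards [hU.mem_nhds hs1] with z hz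
    exact (hasDerivAt_HP h.block hz).deriv
  have h2 : AnalyticAt ℂ (fun s => MP (cc P E) (s - 1)) s :=
    AnalyticAt.fun_comp (g := MP (cc P E)) (f := fun s => s - 1) hMP (analyticAt_id.sub analyticAt_const)
  exact (h2.add hρ).cexp

lemma mero_Bf (P : ℕ → ℂ[X]) (E : Finset ℕ) (s : ℂ) : MeromorphicAt (Bf P E) s := by
  unfold Bf
  refine MeromorphicAt.fun_prod fun p hp => ?_
  have h1 := meromorphic_fac P (mem_filter.1 hp).2.pos 0 s
  simpa using h1

lemma mero_LQ (h : IsEuler P D θ C E) {s : ℂ} (hs : 1 < s.re) : MeromorphicAt (LQ P) s := by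
  refine ((mero_Bf P E s).mul (analytic_expo h hs).meromorphicAt).congr ?_
  have h1 : ∀ᶠ z in 𝓝 s, 1 < z.re :=
    (isOpen_lt continuous_const Complex.continuous_re).mem_nhds hs
  filter_upwards [h1.filter_mono nhdsWithin_le_nhds] with z hz
  rw [LQ_eq h hz]
  rfl

/-- The modulus of a continuation on the line. -/
lemma abs_eq (h : IsEuler P D θ C E) {F : ℂ → ℂ} {τ₀ : ℝ}
    (hF : MeromorphicAt F (1 + τ₀ * Complex.I))
    (he : ∀ᶠ s in 𝓝 (1 + τ₀ * Complex.I : ℂ), 1 < s.re → LQ P s = F s) :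
    ∃ r > 0, ∀ᵐ τ : ℝ, |τ - τ₀| < r →
      F (1 + τ * Complex.I) * conj (F (1 + τ * Complex.I)) = ((eabs P τ : ℝ) : ℂ) ^ 2 := by
  have h1 : ∀ᶠ s in 𝓝[≠] (1 + τ₀ * Complex.I : ℂ), AnalyticAt ℂ F s :=
    hF.eventually_analyticAt
  have h2 : ∀ᶠ τ : ℝ in 𝓝[≠] τ₀, AnalyticAt ℂ F (1 + τ * Complex.I) :=
    (tendsto_line τ₀).eventually h1
  have h3 : ∀ᶠ τ : ℝ in 𝓝 τ₀, ∀ᶠ s in 𝓝 (1 + τ * Complex.I : ℂ), 1 < s.re → LQ P s = F s := by
    have hc : Continuous fun τ : ℝ => (1 + τ * Complex.I : ℂ) := by fun_prop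
    exact (hc.tendsto τ₀).eventually he.eventually_nhds
  obtain ⟨r, hr, h4⟩ := Metric.eventually_nhds_iff.1 ((eventually_nhdsWithin_iff.1 h2).and h3)
  refine ⟨r, hr, ?_⟩
  have hne : ∀ᵐ τ : ℝ, τ ≠ τ₀ := by
    rw [ae_iff]
    simp
  filter_upwards [h.edge', hne] with τ h5 h6 h7
  obtain ⟨h8, h9⟩ := h4 (y := τ) (by rwa [Real.dist_eq])
  have h10 := h8 h6
  have h11 : Tendsto (fun σ : ℝ => (1 + σ + τ * Complex.I : ℂ)) (𝓝[>] 0) (𝓝 (1 + τ * Complex.I)) := by
    have e1 : Continuous fun σ : ℝ => (1 + σ + τ * Complex.I : ℂ) := by fun_prop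
    have e2 := (e1.tendsto 0).mono_left (nhdsWithin_le_nhds (s := Set.Ioi (0 : ℝ)))
    simpa using e2
  have h12 : Tendsto (fun σ : ℝ => ‖F (1 + σ + τ * Complex.I)‖) (𝓝[>] 0)
      (𝓝 ‖F (1 + τ * Complex.I)‖) := (h10.continuousAt.tendsto.comp h11).norm
  have h13 : (fun σ : ℝ => ‖LQ P (1 + σ + τ * Complex.I)‖) =ᶠ[𝓝[>] 0]
      fun σ : ℝ => ‖F (1 + σ + τ * Complex.I)‖ := by
    filter_upwards [h11.eventually h9, self_mem_nhdsWithin] with σ e1 e2
    rw [e1]
    have : (0 : ℝ) < σ := e2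
    simp
    linarith
  have h14 : ‖F (1 + τ * Complex.I)‖ = eabs P τ :=
    tendsto_nhds_unique (h12.congr' h13.symm) h5.1.2
  rw [Complex.mul_conj, Complex.normSq_eq_norm_sq, h14]
  push_cast
  rfl

/-- The product of a continuation and its reflection. -/
lemma prod_eq (h : IsEuler P D θ C E) {F G : ℂ → ℂ} {τ₀ r : ℝ} (hr : 0 < r)
    (hF : MeromorphicAt F (1 + τ₀ * Complex.I))
    (he : ∀ᶠ s in 𝓝 (1 + τ₀ * Complex.I : ℂ), 1 < s.re → LQ P s = F s)
    (hGm : MeromorphicAt G (1 + τ₀ * Complex.I))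
    (hG : ∀ᵐ τ : ℝ, |τ - τ₀| < r → G (1 + τ * Complex.I) = ((eabs P τ : ℝ) : ℂ) ^ 2) :
    (fun s => F s * conj (F (rfl' s))) =ᶠ[𝓝[≠] (1 + τ₀ * Complex.I : ℂ)] G := by
  obtain ⟨r', hr', h1⟩ := abs_eq h hF he
  have hm : MeromorphicAt (fun s => F s * conj (F (rfl' s))) (1 + τ₀ * Complex.I) := by
    refine hF.mul (mero_refl ?_)
    rwa [rfl'_line]
  rw [← hm.frequently_eq_iff_eventuallyEq hGm]
  have h2 : ∀ᵐ τ : ℝ, |τ - τ₀| < min r r' →
      F (1 + τ * Complex.I) * conj (F (rfl' (1 + τ * Complex.I))) = G (1 + τ * Complex.I) := by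
    filter_upwards [h1, hG] with τ e1 e2 e3
    rw [rfl'_line, e1 (lt_of_lt_of_le e3 (min_le_right _ _)),
      e2 (lt_of_lt_of_le e3 (min_le_left _ _))]
  have h3 : ∀ᶠ τ : ℝ in 𝓝[≠] τ₀, |τ - τ₀| < min r r' := by
    have e1 : ∀ᶠ τ : ℝ in 𝓝 τ₀, |τ - τ₀| < min r r' := by
      filter_upwards [Metric.ball_mem_nhds τ₀ (lt_min hr hr')] with τ hτ
      simpa [Real.dist_eq] using hτ
    exact e1.filter_mono nhdsWithin_le_nhds
  have h4 := (freq_right h2 τ₀).filter_mono
    (nhdsWithin_mono (t := {τ₀}ᶜ) _ fun x hx => ne_of_gt hx)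
  refine (tendsto_line τ₀).frequently ((h4.and_eventually h3).mono ?_)
  rintro τ ⟨e1, e2⟩
  exact e1 e2

/-- **Extension by the squared modulus.** -/
theorem extend (h : IsEuler P D θ C E) {U : Set ℂ} (hU : IsOpen U) (hsym : ∀ s ∈ U, rfl' s ∈ U)
    {G : ℂ → ℂ} (hG : MeromorphicOn G U)
    (hG2 : ∀ᵐ τ : ℝ, (1 + τ * Complex.I : ℂ) ∈ U → G (1 + τ * Complex.I) = ((eabs P τ : ℝ) : ℂ) ^ 2) :
    ∃ F : ℂ → ℂ, MeromorphicOn F (U ∪ {s | 1 < s.re}) ∧ (∀ s : ℂ, 1 < s.re → F s = LQ P s) ∧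
      (∀ s ∈ U, s.re < 1 → F s = G s / conj (LQ P (rfl' s))) ∧
      ∀ s₀ ∈ U, s₀.re = 1 → (fun s => F s * conj (F (rfl' s))) =ᶠ[𝓝[≠] s₀] G := by
  classical
  set F : ℂ → ℂ := fun s => if 1 < s.re then LQ P s else if s.re < 1 then
    G s / conj (LQ P (rfl' s)) else limUnder (𝓝[>] (0 : ℝ)) (fun σ : ℝ => LQ P (s + σ)) with hF
  have hline : ∀ s₀ ∈ U, s₀.re = 1 → MeromorphicAt F s₀ ∧
      (fun s => F s * conj (F (rfl' s))) =ᶠ[𝓝[≠] s₀] G := by
    intro s₀ hs₀ hre
    obtain ⟨τ₀, hτ₀⟩ : ∃ τ₀ : ℝ, s₀ = 1 + τ₀ * Complex.I := by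
      refine ⟨s₀.im, ?_⟩
      apply Complex.ext
      · simp [hre]
      · simp
    have hc : Continuous fun τ : ℝ => (1 + τ * Complex.I : ℂ) := by fun_prop
    obtain ⟨r, hr, h1⟩ := Metric.eventually_nhds_iff.1
      (hc.continuousAt.eventually_mem (hU.mem_nhds (by rw [← hτ₀]; exact hs₀) : U ∈ 𝓝 (1 + τ₀ * Complex.I)))
    have hG3 : ∀ᵐ τ : ℝ, |τ - τ₀| < r → G (1 + τ * Complex.I) = ((eabs P τ : ℝ) : ℂ) ^ 2 := by
      filter_upwards [hG2] with τ e1 e2
      exact e1 (h1 (by rwa [Real.dist_eq]))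
    have hGm : MeromorphicAt G (1 + τ₀ * Complex.I) := by
      rw [← hτ₀]
      exact hG s₀ hs₀
    obtain ⟨F₁, hF1, hF2⟩ := local_cont h hr hGm hG3
    have hprod := prod_eq h hr hF1 hF2 hGm hG3
    rw [← hτ₀] at hF1 hF2 hprod hGm
    have key : F =ᶠ[𝓝[≠] s₀] F₁ := by
      have a1 : ∀ᶠ s in 𝓝[≠] s₀, AnalyticAt ℂ F₁ s := hF1.eventually_analyticAt
      have a2 : ∀ᶠ s in 𝓝[≠] s₀, ∀ᶠ z in 𝓝 s, 1 < z.re → LQ P z = F₁ z :=
        (hF2.eventually_nhds).filter_mono nhdsWithin_le_nhds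
      have a3 : ∀ᶠ s in 𝓝[≠] s₀, 1 < (rfl' s).re → LQ P (rfl' s) = F₁ (rfl' s) := by
        have e1 := rfl'_ne (s := s₀)
        rw [rfl'_line' hre] at e1
        exact e1.eventually (hF2.filter_mono nhdsWithin_le_nhds)
      have a4 : ∀ᶠ s in 𝓝[≠] s₀, ∀ p ∈ E.filter Nat.Prime, fac P p (rfl' s) ≠ 0 := by
        have e1 := rfl'_ne (s := s₀)
        rw [rfl'_line' hre] at e1
        exact e1.eventually (fac_ne_punctured h s₀)
      filter_upwards [a1, a2, a3, a4, hprod] with s b1 b2 b3 b4 b5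
      simp only [hF]
      by_cases c1 : 1 < s.re
      · rw [if_pos c1]
        exact b2.self_of_nhds c1
      · rw [if_neg c1]
        by_cases c2 : s.re < 1
        · rw [if_pos c2]
          have c3 : 1 < (rfl' s).re := by
            rw [rfl'_re]
            linarith
          have c4 : LQ P (rfl' s) ≠ 0 := LQ_ne h c3 b4
          rw [← b5, b3 c3]
          rw [b3 c3] at c4
          have c5 : conj (F₁ (rfl' s)) ≠ 0 := by
            rw [Ne, map_eq_zero]
            exact c4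
          field_simp
        · rw [if_neg c2]
          have c3 : s.re = 1 := le_antisymm (not_lt.1 c1) (not_lt.1 c2)
          have c4 : Tendsto (fun σ : ℝ => s + σ) (𝓝[>] 0) (𝓝 s) := by
            have e1 : Continuous fun σ : ℝ => (s + σ : ℂ) := by fun_prop
            have e2 := (e1.tendsto 0).mono_left (nhdsWithin_le_nhds (s := Set.Ioi (0 : ℝ)))
            simpa using e2
          have c5 : Tendsto (fun σ : ℝ => LQ P (s + σ)) (𝓝[>] 0) (𝓝 (F₁ s)) := by
            refine (b1.continuousAt.tendsto.comp c4).congr' ?_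
            filter_upwards [c4.eventually b2, self_mem_nhdsWithin] with σ e1 e2
            refine (e1 ?_).symm
            have : (0 : ℝ) < σ := e2
            rw [Complex.add_re, Complex.ofReal_re, c3]
            linarith
          exact c5.limUnder_eq
    have key2 : (fun s => conj (F (rfl' s))) =ᶠ[𝓝[≠] s₀] fun s => conj (F₁ (rfl' s)) := by
      have e1 := rfl'_ne (s := s₀)
      rw [rfl'_line' hre] at e1
      filter_upwards [e1.eventually key] with s hs
      rw [hs]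
    exact ⟨hF1.congr key.symm, (key.mul key2).trans hprod⟩
  refine ⟨F, ?_, ?_, ?_, fun s₀ h1 h2 => (hline s₀ h1 h2).2⟩
  · intro s hs
    by_cases c1 : 1 < s.re
    · refine (mero_LQ h c1).congr ?_
      have h1 : ∀ᶠ z in 𝓝 s, 1 < z.re :=
        (isOpen_lt continuous_const Complex.continuous_re).mem_nhds c1
      filter_upwards [h1.filter_mono nhdsWithin_le_nhds] with z hz
      simp only [hF]
      rw [if_pos hz]
    · have hsU : s ∈ U := hs.resolve_right c1
      by_cases c2 : s.re < 1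
      · have c3 : 1 < (rfl' s).re := by
          rw [rfl'_re]
          linarith
        refine ((hG s hsU).div (mero_refl (mero_LQ h c3))).congr ?_
        have h1 : ∀ᶠ z in 𝓝 s, z.re < 1 :=
          (isOpen_lt Complex.continuous_re continuous_const).mem_nhds c2
        filter_upwards [h1.filter_mono nhdsWithin_le_nhds] with z hz
        simp only [hF, Pi.div_apply]
        rw [if_neg (not_lt.2 hz.le), if_pos hz]
      · exact (hline s hsU (le_antisymm (not_lt.1 c1) (not_lt.1 c2))).1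
  · intro s hs
    simp only [hF]
    rw [if_pos hs]
  · intro s _ hs
    simp only [hF]
    rw [if_neg (not_lt.2 hs.le), if_pos hs]

/-- **The meromorphic criterion.** -/
theorem mero_iff (h : IsEuler P D θ C E) {U : Set ℂ} (hU : IsOpen U) (hsym : ∀ s ∈ U, rfl' s ∈ U) :
    (∃ F : ℂ → ℂ, MeromorphicOn F (U ∪ {s | 1 < s.re}) ∧ ∀ s : ℂ, 1 < s.re → F s = LQ P s) ↔
      ∃ G : ℂ → ℂ, MeromorphicOn G U ∧ ∀ᵐ τ : ℝ, (1 + τ * Complex.I : ℂ) ∈ U →
        G (1 + τ * Complex.I) = ((eabs P τ : ℝ) : ℂ) ^ 2 := by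
  constructor
  · rintro ⟨F, hF1, hF2⟩
    refine ⟨fun s => F s * conj (F (rfl' s)), fun s hs => ?_, ?_⟩
    · exact (hF1 s (Or.inl hs)).mul (mero_refl (hF1 _ (Or.inl (hsym s hs))))
    · refine ae_of_local (V := {τ : ℝ | (1 + τ * Complex.I : ℂ) ∈ U}) fun τ₀ hτ₀ => ?_
      obtain ⟨r, hr, h1⟩ := abs_eq h (hF1 _ (Or.inl hτ₀))
        (Eventually.of_forall fun s hs => (hF2 s hs).symm)
      refine ⟨r, hr, ?_⟩
      filter_upwards [h1] with τ h2 h3
      rw [rfl'_line]
      exact h2 h3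
  · rintro ⟨G, hG1, hG2⟩
    obtain ⟨F, hF1, hF2, -, -⟩ := extend h hU hsym hG1 hG2
    exact ⟨F, hF1, hF2⟩

/-- The order of the product with the reflection. -/
lemma order_refl {F G : ℂ → ℂ} {s₀ : ℂ} (hre : s₀.re = 1) (hF : MeromorphicAt F s₀)
    (hG : AnalyticAt ℂ G s₀) (he : (fun s => F s * conj (F (rfl' s))) =ᶠ[𝓝[≠] s₀] G) :
    0 ≤ meromorphicOrderAt F s₀ := by
  by_cases htop : meromorphicOrderAt F s₀ = ⊤
  · rw [htop]
    exact le_top
  obtain ⟨f, hf1, hf2, hf3⟩ := (meromorphicOrderAt_ne_top_iff hF).1 htop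
  set k : ℤ := (meromorphicOrderAt F s₀).untop₀ with hk
  have hr0 : rfl' s₀ = s₀ := rfl'_line' hre
  have hf1' : AnalyticAt ℂ f (rfl' s₀) := by rwa [hr0]
  have hm : MeromorphicAt (fun s => F s * conj (F (rfl' s))) s₀ :=
    hF.mul (mero_refl (by rwa [hr0]))
  have h1 : meromorphicOrderAt (fun s => F s * conj (F (rfl' s))) s₀ = ((2 * k : ℤ) : WithTop ℤ) := by
    rw [meromorphicOrderAt_eq_int_iff hm]
    refine ⟨fun s => (-1 : ℂ) ^ k * (f s * conj (f (rfl' s))),
      analyticAt_const.mul (hf1.mul (analytic_refl hf1')), ?_, ?_⟩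
    · refine mul_ne_zero (zpow_ne_zero _ (by norm_num)) (mul_ne_zero hf2 ?_)
      rw [Ne, map_eq_zero, hr0]
      exact hf2
    · have h2 := rfl'_ne (s := s₀)
      rw [hr0] at h2
      filter_upwards [hf3, h2.eventually hf3, self_mem_nhdsWithin] with s e1 e2 e3
      rw [e1, e2, smul_eq_mul, smul_eq_mul, smul_eq_mul, map_mul, map_zpow₀]
      have h3 : conj (rfl' s - s₀) = -(s - s₀) := by
        conv_lhs => rw [← hr0]
        unfold rfl'
        simp
      have h4 : s - s₀ ≠ 0 := sub_ne_zero.2 e3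
      rw [h3, show -(s - s₀) = (-1) * (s - s₀) by ring, mul_zpow, show 2 * k = k + k by ring,
        zpow_add₀ h4]
      ring
  have h2 : 0 ≤ meromorphicOrderAt (fun s => F s * conj (F (rfl' s))) s₀ := by
    rw [meromorphicOrderAt_congr he]
    exact hG.meromorphicOrderAt_nonneg
  rw [h1] at h2
  have h3 : 0 ≤ 2 * k := by exact_mod_cast h2
  have h4 : meromorphicOrderAt F s₀ = (k : WithTop ℤ) := (WithTop.coe_untop₀_of_ne_top htop).symm
  rw [h4]
  have h5 : 0 ≤ k := by omega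
  exact_mod_cast h5

/-- **The holomorphic criterion.** -/
theorem holo_iff (h : IsEuler P D θ C E)
    (hz : ∀ p : ℕ, p.Prime → ∀ z : ℂ, (P p).eval z = 0 → 1 / (p : ℝ) ≤ ‖z‖)
    {U : Set ℂ} (hU : IsOpen U) (hsym : ∀ s ∈ U, rfl' s ∈ U) :
    (∃ F : ℂ → ℂ, DifferentiableOn ℂ F (U ∪ {s | 1 < s.re}) ∧ ∀ s : ℂ, 1 < s.re → F s = LQ P s) ↔
      ∃ G : ℂ → ℂ, DifferentiableOn ℂ G U ∧ ∀ᵐ τ : ℝ, (1 + τ * Complex.I : ℂ) ∈ U →
        G (1 + τ * Complex.I) = ((eabs P τ : ℝ) : ℂ) ^ 2 := by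
  have hR : IsOpen {s : ℂ | 1 < s.re} := isOpen_lt continuous_const Complex.continuous_re
  have hW : IsOpen (U ∪ {s : ℂ | 1 < s.re}) := hU.union hR
  constructor
  · rintro ⟨F, hF1, hF2⟩
    refine ⟨fun s => F s * conj (F (rfl' s)), fun s hs => ?_, ?_⟩
    · have h1 : DifferentiableAt ℂ F s := hF1.differentiableAt (hW.mem_nhds (Or.inl hs))
      have h2 : DifferentiableAt ℂ F (rfl' s) :=
        hF1.differentiableAt (hW.mem_nhds (Or.inl (hsym s hs)))
      exact (h1.mul (diff_refl h2)).differentiableWithinAt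
    · refine ae_of_local (V := {τ : ℝ | (1 + τ * Complex.I : ℂ) ∈ U}) fun τ₀ hτ₀ => ?_
      have h0 : MeromorphicAt F (1 + τ₀ * Complex.I) :=
        (hF1.analyticAt (hW.mem_nhds (Or.inl hτ₀))).meromorphicAt
      obtain ⟨r, hr, h1⟩ := abs_eq h h0
        (Eventually.of_forall fun s hs => (hF2 s hs).symm)
      refine ⟨r, hr, ?_⟩
      filter_upwards [h1] with τ h2 h3
      rw [rfl'_line]
      exact h2 h3
  · rintro ⟨G, hG1, hG2⟩
    have hGa : ∀ s ∈ U, AnalyticAt ℂ G s := fun s hs => hG1.analyticAt (hU.mem_nhds hs)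
    obtain ⟨F, hF1, hF2, hF3, hF4⟩ := extend h hU hsym (fun s hs => (hGa s hs).meromorphicAt) hG2
    -- the Euler product is holomorphic without zeros
    have hfac : ∀ s : ℂ, 1 < s.re → ∀ p ∈ E.filter Nat.Prime,
        (P p).eval ((p : ℂ) ^ (-s)) ≠ 0 := by
      intro s hs p hp h1
      have hp' := (mem_filter.1 hp).2
      have h2 := hz p hp' _ h1
      rw [Complex.norm_natCast_cpow_of_pos hp'.pos, one_div, ← Real.rpow_neg_one] at h2
      have h3 : (p : ℝ) ^ (-s).re < (p : ℝ) ^ (-1 : ℝ) := by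
        refine Real.rpow_lt_rpow_of_exponent_lt (by exact_mod_cast hp'.one_lt) ?_
        rw [Complex.neg_re]
        linarith
      linarith
    have hLne : ∀ s : ℂ, 1 < s.re → LQ P s ≠ 0 := fun s hs =>
      LQ_ne h hs fun p hp => inv_ne_zero (hfac s hs p hp)
    have hLa : ∀ s : ℂ, 1 < s.re → AnalyticAt ℂ (LQ P) s := by
      intro s hs
      have h1 : AnalyticAt ℂ (Bf P E) s := by
        unfold Bf
        refine Finset.analyticAt_fun_prod _ fun p hp => ?_
        have hp' := (mem_filter.1 hp).2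
        unfold fac
        refine AnalyticAt.inv ?_ (hfac s hs p hp)
        have hd : Differentiable ℂ fun s : ℂ => (P p).eval ((p : ℂ) ^ (-s)) := by
          have e1 : (fun s : ℂ => (P p).eval ((p : ℂ) ^ (-s))) =
              fun s => (P p).eval (Complex.exp (-s * Real.log p)) := by
            funext s
            rw [natCast_cpow_eq hp'.pos]
          rw [e1]
          refine (P p).differentiable.comp ?_
          fun_prop
        exact hd.analyticAt s
      refine (h1.mul (analytic_expo h hs)).congr ?_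
      filter_upwards [hR.mem_nhds hs] with z hz
      rw [LQ_eq h hz]
      rfl
    refine ⟨toMeromorphicNFOn F (U ∪ {s | 1 < s.re}), ?_, ?_⟩
    · intro s hs
      have h1 : MeromorphicNFAt (toMeromorphicNFOn F (U ∪ {s | 1 < s.re})) s :=
        meromorphicNFOn_toMeromorphicNFOn _ _ hs
      have h2 : 0 ≤ meromorphicOrderAt F s := by
        by_cases c1 : 1 < s.re
        · have e1 : F =ᶠ[𝓝[≠] s] LQ P := by
            have e2 : F =ᶠ[𝓝 s] LQ P := by
              filter_upwards [hR.mem_nhds c1] with z hz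
              exact hF2 z hz
            exact e2.filter_mono nhdsWithin_le_nhds
          rw [meromorphicOrderAt_congr e1]
          exact (hLa s c1).meromorphicOrderAt_nonneg
        · have hsU : s ∈ U := hs.resolve_right c1
          by_cases c2 : s.re < 1
          · have c3 : 1 < (rfl' s).re := by
              rw [rfl'_re]
              linarith
            have e1 : F =ᶠ[𝓝[≠] s] fun z => G z / conj (LQ P (rfl' z)) := by
              have e2 : F =ᶠ[𝓝 s] fun z => G z / conj (LQ P (rfl' z)) := by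
                filter_upwards [hU.mem_nhds hsU,
                  (isOpen_lt Complex.continuous_re continuous_const).mem_nhds c2] with z hz1 hz2
                exact hF3 z hz1 hz2
              exact e2.filter_mono nhdsWithin_le_nhds
            rw [meromorphicOrderAt_congr e1]
            refine AnalyticAt.meromorphicOrderAt_nonneg ((hGa s hsU).div (analytic_refl (hLa _ c3)) ?_)
            rw [Ne, map_eq_zero]
            exact hLne _ c3
          · have c3 : s.re = 1 := le_antisymm (not_lt.1 c1) (not_lt.1 c2)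
            exact order_refl c3 (hF1 s hs) (hGa s hsU) (hF4 s hsU c3)
      rw [← meromorphicOrderAt_toMeromorphicNFOn hF1 hs,
        h1.meromorphicOrderAt_nonneg_iff_analyticAt] at h2
      exact h2.differentiableAt.differentiableWithinAt
    · intro s hs
      have hsW : s ∈ U ∪ {s | 1 < s.re} := Or.inr hs
      have e2 : F =ᶠ[𝓝 s] LQ P := by
        filter_upwards [hR.mem_nhds hs] with z hz
        exact hF2 z hz
      have h1 : MeromorphicNFAt F s := ((hLa s hs).congr e2.symm).meromorphicNFAt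
      rw [toMeromorphicNFOn_eq_toMeromorphicNFAt hF1 hsW, toMeromorphicNFAt_eq_self.2 h1]
      exact hF2 s hs

end Pool.Agent.Y774.SM
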