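import Pool.Agent.Y774.SM.Rem
import Pool.Agent.H18R3.Refl

/-!
# Local continuation from the modulus of the boundary values
-/

set_option autoImplicit false

namespace Pool.Agent.Y774.SM

open Filter Topology MeasureTheory Finset Pool.Agent.W350.Edge Polynomial Pool.Agent.Y774.MD

lemma freq_right {Q : ℝ → Prop} (h : ∀ᵐ u : ℝ, Q u) (x : ℝ) : ∃ᶠ u in 𝓝[>] x, Q u := by
  have hd := Measure.dense_of_ae h
  rw [Filter.frequently_iff]
  intro V hV
  obtain ⟨y, hy, hsub⟩ := mem_nhdsGT_iff_exists_Ioo_subset.1 hV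
  obtain ⟨z, hz1, hz2⟩ := hd.exists_mem_open isOpen_Ioo (Set.nonempty_Ioo.2 hy)
  exact ⟨z, hsub hz2, hz1⟩

lemma freq_left {Q : ℝ → Prop} (h : ∀ᵐ u : ℝ, Q u) (x : ℝ) : ∃ᶠ u in 𝓝[<] x, Q u := by
  have hd := Measure.dense_of_ae h
  rw [Filter.frequently_iff]
  intro V hV
  obtain ⟨y, hy, hsub⟩ := mem_nhdsLT_iff_exists_Ioo_subset.1 hV
  obtain ⟨z, hz1, hz2⟩ := hd.exists_mem_open isOpen_Ioo (Set.nonempty_Ioo.2 hy)
  exact ⟨z, hsub hz2, hz1⟩

lemma tendsto_line (τ₀ : ℝ) :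
    Tendsto (fun τ : ℝ => (1 + τ * Complex.I : ℂ)) (𝓝[≠] τ₀) (𝓝[≠] (1 + τ₀ * Complex.I)) := by
  have h1 : Continuous fun τ : ℝ => (1 + τ * Complex.I : ℂ) := by fun_prop
  refine tendsto_nhdsWithin_iff.2 ⟨(h1.tendsto τ₀).mono_left nhdsWithin_le_nhds, ?_⟩
  filter_upwards [self_mem_nhdsWithin] with τ hτ h2
  refine hτ ?_
  have h3 : (1 + τ * Complex.I : ℂ) = 1 + τ₀ * Complex.I := h2
  have h4 := congrArg Complex.im h3
  simpa using h4

lemma freq_line {Q : ℂ → Prop} (h : ∀ᵐ τ : ℝ, Q (1 + τ * Complex.I)) (τ₀ : ℝ) :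
    ∃ᶠ s in 𝓝[≠] (1 + τ₀ * Complex.I : ℂ), Q s :=
  (tendsto_line τ₀).frequently (((freq_right h τ₀).filter_mono
    (nhdsWithin_mono _ fun x hx => ne_of_gt hx)))

/-- The order is even, if the values on the line are positive. -/
lemma even_order {G g : ℂ → ℂ} {n : ℤ} {τ₀ r : ℝ} (hr : 0 < r)
    (hg : ContinuousAt g (1 + τ₀ * Complex.I)) (hg0 : g (1 + τ₀ * Complex.I) ≠ 0)
    (hG : ∀ᶠ s in 𝓝[≠] (1 + τ₀ * Complex.I : ℂ), G s = (s - (1 + τ₀ * Complex.I)) ^ n * g s)
    (a : ℝ → ℝ)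
    (ha : ∀ᵐ τ : ℝ, |τ - τ₀| < r → 0 < a τ ∧ G (1 + τ * Complex.I) = (a τ : ℂ)) : Even n := by
  by_contra hn
  have hodd : Odd n := Int.not_even_iff_odd.1 hn
  set φ : ℝ → ℂ := fun τ => Complex.I ^ n * g (1 + τ * Complex.I) with hφ
  have hφc : ContinuousAt φ τ₀ := by
    have h1 : Continuous fun τ : ℝ => (1 + τ * Complex.I : ℂ) := by fun_prop
    have h2 : ContinuousAt (fun τ : ℝ => g (1 + τ * Complex.I)) τ₀ :=
      ContinuousAt.comp (f := fun τ : ℝ => (1 + τ * Complex.I : ℂ)) (g := g) hg h1.continuousAt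
    exact continuousAt_const.mul h2
  have hφ0 : φ τ₀ ≠ 0 := mul_ne_zero (zpow_ne_zero _ Complex.I_ne_zero) hg0
  have hev : ∀ᶠ τ : ℝ in 𝓝[≠] τ₀, G (1 + τ * Complex.I) = ((τ - τ₀ : ℝ) : ℂ) ^ n * φ τ := by
    filter_upwards [(tendsto_line τ₀).eventually hG] with τ hτ
    rw [hτ]
    simp only [hφ]
    have h1 : (1 + τ * Complex.I - (1 + τ₀ * Complex.I) : ℂ) = ((τ - τ₀ : ℝ) : ℂ) * Complex.I := by
      push_cast
      ring
    rw [h1, mul_zpow, mul_assoc]
  have hball : ∀ᶠ τ : ℝ in 𝓝[≠] τ₀, |τ - τ₀| < r := by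
    have h1 : ∀ᶠ τ : ℝ in 𝓝 τ₀, |τ - τ₀| < r := by
      filter_upwards [Metric.ball_mem_nhds τ₀ hr] with τ hτ
      simpa [Real.dist_eq] using hτ
    exact h1.filter_mono nhdsWithin_le_nhds
  have hval : ∀ τ : ℝ, τ ≠ τ₀ → |τ - τ₀| < r → (|τ - τ₀| < r → 0 < a τ ∧
      G (1 + τ * Complex.I) = (a τ : ℂ)) → G (1 + τ * Complex.I) = ((τ - τ₀ : ℝ) : ℂ) ^ n * φ τ →
      0 < a τ ∧ φ τ = ((a τ / (τ - τ₀) ^ n : ℝ) : ℂ) := by
    intro τ h1 h2 h3 h4
    obtain ⟨h5, h6⟩ := h3 h2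
    refine ⟨h5, ?_⟩
    have h7 : ((τ - τ₀ : ℝ) : ℂ) ^ n ≠ 0 := zpow_ne_zero _ (by exact_mod_cast sub_ne_zero.2 h1)
    rw [h6] at h4
    rw [Complex.ofReal_div, Complex.ofReal_zpow, h4]
    field_simp
  have hcl1 : IsClosed {z : ℂ | 0 ≤ z.re ∧ z.im = 0} :=
    (isClosed_le continuous_const Complex.continuous_re).inter
      (isClosed_eq Complex.continuous_im continuous_const)
  have hcl2 : IsClosed {z : ℂ | z.re ≤ 0 ∧ z.im = 0} :=
    (isClosed_le Complex.continuous_re continuous_const).inter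
      (isClosed_eq Complex.continuous_im continuous_const)
  have m1 : φ τ₀ ∈ {z : ℂ | 0 ≤ z.re ∧ z.im = 0} := by
    refine hcl1.mem_of_frequently_of_tendsto (b := 𝓝[>] τ₀) ?_
      (hφc.tendsto.mono_left nhdsWithin_le_nhds)
    refine ((freq_right ha τ₀).and_eventually (((hev.and hball).filter_mono
      (nhdsWithin_mono _ fun x hx => ne_of_gt hx)).and self_mem_nhdsWithin)).mono ?_
    rintro τ ⟨h1, ⟨h2, h3⟩, h4⟩
    have h4' : τ₀ < τ := h4
    obtain ⟨h5, h6⟩ := hval τ (ne_of_gt h4') h3 h1 h2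
    rw [Set.mem_ofPred_eq, h6, Complex.ofReal_re, Complex.ofReal_im]
    exact ⟨div_nonneg h5.le (zpow_nonneg (by linarith) _), rfl⟩
  have m2 : φ τ₀ ∈ {z : ℂ | z.re ≤ 0 ∧ z.im = 0} := by
    refine hcl2.mem_of_frequently_of_tendsto (b := 𝓝[<] τ₀) ?_
      (hφc.tendsto.mono_left nhdsWithin_le_nhds)
    refine ((freq_left ha τ₀).and_eventually (((hev.and hball).filter_mono
      (nhdsWithin_mono _ fun x hx => ne_of_lt hx)).and self_mem_nhdsWithin)).mono ?_
    rintro τ ⟨h1, ⟨h2, h3⟩, h4⟩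
    have h4' : τ < τ₀ := h4
    obtain ⟨h5, h6⟩ := hval τ (ne_of_lt h4') h3 h1 h2
    rw [Set.mem_ofPred_eq, h6, Complex.ofReal_re, Complex.ofReal_im]
    exact ⟨div_nonpos_of_nonneg_of_nonpos h5.le (hodd.zpow_neg (by linarith)).le, rfl⟩
  refine hφ0 (Complex.ext ?_ m1.2)
  exact le_antisymm m2.1 m1.1

/-- The function `w log w` is continuous on the closed right half plane. -/
lemma cont_mul_log : ContinuousOn (fun w : ℂ => w * Complex.log w) {w | 0 ≤ w.re} := by
  intro w hw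
  by_cases h0 : w = 0
  · subst h0
    refine ContinuousAt.continuousWithinAt ?_
    show Tendsto _ _ (𝓝 ((0 : ℂ) * Complex.log 0))
    rw [zero_mul]
    have h1 : Tendsto (fun w : ℂ => |‖w‖ * Real.log ‖w‖| + ‖w‖ * Real.pi) (𝓝 0) (𝓝 0) := by
      have h2 : Continuous fun w : ℂ => |‖w‖ * Real.log ‖w‖| + ‖w‖ * Real.pi :=
        ((Real.continuous_mul_log.comp continuous_norm).abs).add (continuous_norm.mul continuous_const)
      have h3 := h2.tendsto 0
      simpa using h3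
    refine squeeze_zero_norm (fun w => ?_) h1
    rw [norm_mul]
    have h2 : ‖Complex.log w‖ ≤ |Real.log ‖w‖| + Real.pi := by
      refine (Complex.norm_le_abs_re_add_abs_im _).trans ?_
      rw [Complex.log_re, Complex.log_im]
      exact add_le_add le_rfl (Complex.abs_arg_le_pi w)
    calc ‖w‖ * ‖Complex.log w‖ ≤ ‖w‖ * (|Real.log ‖w‖| + Real.pi) :=
          mul_le_mul_of_nonneg_left h2 (norm_nonneg _)
      _ = _ := by rw [mul_add, abs_mul, abs_of_nonneg (norm_nonneg w)]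
  · refine ContinuousAt.continuousWithinAt (continuousAt_id.mul (continuousAt_clog ?_))
    rw [Complex.mem_slitPlane_iff]
    have hw' : 0 ≤ w.re := hw
    rcases hw'.lt_or_eq with h1 | h1
    · exact Or.inl h1
    · right
      intro h2
      exact h0 (Complex.ext h1.symm h2)

lemma im_mul_log (u : ℝ) :
    ((u * Complex.I : ℂ) * Complex.log (u * Complex.I) - u * Complex.I).im = u * Real.log u - u := by
  rw [Complex.sub_im, Complex.mul_im, Complex.log_re]
  have h1 : ‖(u * Complex.I : ℂ)‖ = |u| := by simp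
  rw [h1, Real.log_abs]
  simp

variable {P : ℕ → ℂ[X]} {D : ℕ} {θ C κ : ℝ} {E : Finset ℕ}

/-- **Local continuation.** -/
theorem local_cont (h : IsEuler P D θ C E) {τ₀ r : ℝ} (hr : 0 < r) {G : ℂ → ℂ}
    (hGm : MeromorphicAt G (1 + τ₀ * Complex.I))
    (hG : ∀ᵐ τ : ℝ, |τ - τ₀| < r → G (1 + τ * Complex.I) = ((eabs P τ : ℝ) : ℂ) ^ 2) :
    ∃ F : ℂ → ℂ, MeromorphicAt F (1 + τ₀ * Complex.I) ∧
      ∀ᶠ s in 𝓝 (1 + τ₀ * Complex.I : ℂ), 1 < s.re → LQ P s = F s := by
  classical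
  set s₀ : ℂ := 1 + τ₀ * Complex.I with hs₀
  have hs₀re : s₀.re = 1 := by simp [hs₀]
  set E' := E.filter Nat.Prime with hE'
  obtain ⟨κ, hκ0, hκ⟩ : ∃ κ : ℝ, 0 < κ ∧ θ + κ < 1 / 2 :=
    ⟨(1 / 2 - θ) / 2, by have := h.hθ; linarith, by have := h.hθ; linarith⟩
  have hρ : AnalyticAt ℂ (rho P E) s₀ := by
    refine (differentiableOn_rho h hκ).analyticAt
      ((isOpen_lt continuous_const Complex.continuous_re).mem_nhds ?_)
    show 1 - κ < s₀.re
    rw [hs₀re]
    linarith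
  -- the order of `G`
  have hpos : ∀ᵐ τ : ℝ, |τ - τ₀| < r → 0 < (eabs P τ) ^ 2 ∧
      G (1 + τ * Complex.I) = (((eabs P τ) ^ 2 : ℝ) : ℂ) := by
    filter_upwards [hG, h.edge'] with τ h1 h2 h3
    refine ⟨pow_pos h2.1.1 2, ?_⟩
    rw [h1 h3]
    push_cast
    rfl
  have hball : ∀ᶠ τ : ℝ in 𝓝[≠] τ₀, |τ - τ₀| < r := by
    have h1 : ∀ᶠ τ : ℝ in 𝓝 τ₀, |τ - τ₀| < r := by
      filter_upwards [Metric.ball_mem_nhds τ₀ hr] with τ hτ
      simpa [Real.dist_eq] using hτ
    exact h1.filter_mono nhdsWithin_le_nhds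
  have hGtop : meromorphicOrderAt G s₀ ≠ ⊤ := by
    intro htop
    rw [meromorphicOrderAt_eq_top_iff] at htop
    have h1 := ((tendsto_line τ₀).eventually htop).and hball
    have h2 := (freq_right hpos τ₀).filter_mono (nhdsWithin_mono (t := {τ₀}ᶜ) _ fun x hx => ne_of_gt hx)
    obtain ⟨τ, h3, h4, h5⟩ := (h2.and_eventually h1).exists
    obtain ⟨h6, h7⟩ := h3 h5
    rw [h4] at h7
    have h8 : ((eabs P τ) ^ 2 : ℝ) = 0 := by exact_mod_cast h7.symm
    exact h6.ne' h8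
  obtain ⟨g, hga, hg0, hGe⟩ := (meromorphicOrderAt_ne_top_iff hGm).1 hGtop
  set n : ℤ := (meromorphicOrderAt G s₀).untop₀ with hn
  have heven : Even n := by
    refine even_order hr hga.continuousAt hg0 ?_ (fun τ => (eabs P τ) ^ 2) hpos
    filter_upwards [hGe] with s hs
    simpa using hs
  obtain ⟨m, hm⟩ := heven
  -- the order of the bad factors
  have hfne : ∀ᶠ s in 𝓝[≠] s₀, ∀ p ∈ E', fac P p s ≠ 0 := by
    rw [eventually_all_finset]
    intro p hp
    have h1 := eventually_ne (h.ne p (mem_filter.1 hp).2) (mem_filter.1 hp).2.two_le 0 s₀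
    filter_upwards [h1] with s hs
    unfold fac
    refine inv_ne_zero ?_
    simpa using hs
  have hBm : MeromorphicAt (Bf P E) s₀ := by
    unfold Bf
    refine MeromorphicAt.fun_prod fun p hp => ?_
    have h1 := meromorphic_fac P (mem_filter.1 hp).2.pos 0 s₀
    simpa using h1
  have hBtop : meromorphicOrderAt (Bf P E) s₀ ≠ ⊤ := by
    rw [meromorphicOrderAt_ne_top_iff_eventually_ne_zero hBm]
    filter_upwards [hfne] with s hs
    unfold Bf
    exact prod_ne_zero_iff.2 hs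
  obtain ⟨β, hβa, hβ0, hBe⟩ := (meromorphicOrderAt_ne_top_iff hBm).1 hBtop
  set b : ℤ := (meromorphicOrderAt (Bf P E) s₀).untop₀ with hb
  -- the radius
  have hslit : ∀ {f : ℂ → ℂ}, AnalyticAt ℂ f s₀ → f s₀ ≠ 0 →
      ∀ᶠ s in 𝓝 s₀, f s / f s₀ ∈ Complex.slitPlane := by
    intro f hf hf0
    have h1 : ContinuousAt (fun s => f s / f s₀) s₀ := hf.continuousAt.div_const _
    refine h1.eventually_mem (Complex.isOpen_slitPlane.mem_nhds ?_)
    rw [div_self hf0]
    exact Complex.one_mem_slitPlane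
  have hev1 : ∀ᶠ s in 𝓝 s₀, (AnalyticAt ℂ g s ∧ AnalyticAt ℂ β s ∧ AnalyticAt ℂ (rho P E) s) ∧
      (g s / g s₀ ∈ Complex.slitPlane ∧ β s / β s₀ ∈ Complex.slitPlane) ∧
      (s ≠ s₀ → G s = (s - s₀) ^ n * g s ∧ Bf P E s = (s - s₀) ^ b * β s ∧
        ∀ p ∈ E', fac P p s ≠ 0) := by
    have e1 := hga.eventually_analyticAt
    have e2 := hβa.eventually_analyticAt
    have e3 := hρ.eventually_analyticAt
    have e4 := hslit hga hg0
    have e5 := hslit hβa hβ0
    have e6 := eventually_nhdsWithin_iff.1 hGe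
    have e7 := eventually_nhdsWithin_iff.1 hBe
    have e8 := eventually_nhdsWithin_iff.1 hfne
    filter_upwards [e1, e2, e3, e4, e5, e6, e7, e8] with s f1 f2 f3 f4 f5 f6 f7 f8
    refine ⟨⟨f1, f2, f3⟩, ⟨f4, f5⟩, fun hs => ⟨?_, ?_, f8 hs⟩⟩
    · simpa using f6 hs
    · simpa using f7 hs
  obtain ⟨a₀, ha₀, hball0⟩ := Metric.eventually_nhds_iff.1 hev1
  set a := min a₀ r with ha
  have ha0 : 0 < a := lt_min ha₀ hr
  have hnb : ∀ s : ℂ, ‖s - s₀‖ < a → _ := fun s hs =>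
    hball0 (y := s) (by rw [dist_eq_norm]; exact lt_of_lt_of_le hs (min_le_left _ _))
  set q : ℂ → ℂ := fun s => (1 / 2) * (Complex.log (g s / g s₀) + Real.log ‖g s₀‖) -
    (Complex.log (β s / β s₀) + Real.log ‖β s₀‖) - rho P E s with hq
  have hqa : ∀ s : ℂ, ‖s - s₀‖ < a → AnalyticAt ℂ q s := by
    intro s hs
    obtain ⟨⟨f1, f2, f3⟩, ⟨f4, f5⟩, -⟩ := hnb s hs
    have h1 : AnalyticAt ℂ (fun s => Complex.log (g s / g s₀)) s :=
      (f1.div analyticAt_const hg0).clog f4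
    have h2 : AnalyticAt ℂ (fun s => Complex.log (β s / β s₀)) s :=
      (f2.div analyticAt_const hβ0).clog f5
    exact ((analyticAt_const.mul (h1.add analyticAt_const)).sub (h2.add analyticAt_const)).sub f3
  have hqre : ∀ s : ℂ, ‖s - s₀‖ < a → g s ≠ 0 ∧ β s ≠ 0 ∧
      (q s).re = 1 / 2 * Real.log ‖g s‖ - Real.log ‖β s‖ - (rho P E s).re := by
    intro s hs
    obtain ⟨-, ⟨f4, f5⟩, -⟩ := hnb s hs
    have hg1 : g s ≠ 0 := by
      intro h1
      rw [h1, zero_div] at f4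
      exact Complex.zero_notMem_slitPlane f4
    have hβ1 : β s ≠ 0 := by
      intro h1
      rw [h1, zero_div] at f5
      exact Complex.zero_notMem_slitPlane f5
    refine ⟨hg1, hβ1, ?_⟩
    have h1 : (1 / 2 : ℂ) = ((1 / 2 : ℝ) : ℂ) := by push_cast; rfl
    simp only [hq]
    rw [h1, Complex.sub_re, Complex.sub_re, Complex.re_ofReal_mul, Complex.add_re, Complex.add_re,
      Complex.log_re, Complex.log_re, Complex.ofReal_re, Complex.ofReal_re, norm_div, norm_div,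
      Real.log_div (norm_ne_zero_iff.2 hg1) (norm_ne_zero_iff.2 hg0),
      Real.log_div (norm_ne_zero_iff.2 hβ1) (norm_ne_zero_iff.2 hβ0)]
    ring
  have hqd : DifferentiableOn ℂ q (Metric.ball s₀ a) := fun s hs =>
    (hqa s (by rwa [mem_ball_iff_norm] at hs)).differentiableAt.differentiableWithinAt
  obtain ⟨Kq, hKq⟩ := hqd.isExactOn_ball
  have hKq' : ∀ s : ℂ, ‖s - s₀‖ < a → HasDerivAt Kq (q s) s := fun s hs =>
    hKq s (by rwa [mem_ball_iff_norm])
  set ν : ℤ := m - b with hν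
  -- the modulus on the line
  have hline : ∀ᵐ τ : ℝ, |τ - τ₀| < a →
      Gr P E τ = ν * Real.log (τ - τ₀) + (q (1 + τ * Complex.I)).re := by
    have hne : ∀ᵐ τ : ℝ, τ ≠ τ₀ := by
      rw [ae_iff]
      simp
    filter_upwards [hpos, h.edge', hne] with τ h1 h2 h3 h4
    have hd : (1 + τ * Complex.I : ℂ) - s₀ = ((τ - τ₀ : ℝ) : ℂ) * Complex.I := by
      rw [hs₀]
      push_cast
      ring
    have hdn : ‖(1 + τ * Complex.I : ℂ) - s₀‖ = |τ - τ₀| := by
      rw [hd, norm_mul, Complex.norm_I, mul_one, Complex.norm_real, Real.norm_eq_abs]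
    have hsa : ‖(1 + τ * Complex.I : ℂ) - s₀‖ < a := by rwa [hdn]
    have hne0 : (1 + τ * Complex.I : ℂ) ≠ s₀ := by
      intro h5
      rw [h5, sub_self, norm_zero] at hdn
      exact h3 (sub_eq_zero.1 (abs_eq_zero.1 hdn.symm))
    obtain ⟨-, -, f6⟩ := hnb _ hsa
    obtain ⟨f7, f8, f9⟩ := f6 hne0
    obtain ⟨hg1, hβ1, hqr⟩ := hqre _ hsa
    obtain ⟨h5, h6⟩ := h1 (lt_of_lt_of_le h4 (min_le_right _ _))
    have hu0 : τ - τ₀ ≠ 0 := sub_ne_zero.2 h3
    have hu1 : |τ - τ₀| ≠ 0 := abs_ne_zero.2 hu0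
    -- `log eabs`
    have e1 : 2 * Real.log (eabs P τ) = n * Real.log (τ - τ₀) + Real.log ‖g (1 + τ * Complex.I)‖ := by
      have e2 : Real.log ‖G (1 + τ * Complex.I)‖ = 2 * Real.log (eabs P τ) := by
        rw [h6, Complex.norm_real, Real.norm_of_nonneg h5.le, Real.log_pow]
        norm_num
      rw [← e2, f7, norm_mul, norm_zpow, hdn, Real.log_mul (zpow_ne_zero _ hu1)
        (norm_ne_zero_iff.2 hg1), Real.log_zpow, Real.log_abs]
    have e3 : ∑ p ∈ E', rl P p τ = b * Real.log (τ - τ₀) + Real.log ‖β (1 + τ * Complex.I)‖ := by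
      have e4 : ∑ p ∈ E', rl P p τ = Real.log ‖Bf P E (1 + τ * Complex.I)‖ := by
        unfold Bf rl
        rw [norm_prod, Real.log_prod fun p hp => norm_ne_zero_iff.2 (f9 p hp)]
      rw [e4, f8, norm_mul, norm_zpow, hdn, Real.log_mul (zpow_ne_zero _ hu1)
        (norm_ne_zero_iff.2 hβ1), Real.log_zpow, Real.log_abs]
    unfold Gr
    rw [← hE', e3, hqr]
    have e5 : (n : ℝ) = 2 * m := by
      rw [hm]
      push_cast
      ring
    have e6 : (ν : ℝ) = m - b := by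
      rw [hν]
      push_cast
      ring
    rw [e5] at e1
    rw [e6]
    linarith
  -- the function to be reflected
  set cst : ℝ := (HP (cc P E) (τ₀ * Complex.I)).im - (Kq s₀).im with hcst
  set hh : ℂ → ℂ := fun ζ => HP (cc P E) (τ₀ * Complex.I - Complex.I * ζ) -
    ν * ((-Complex.I * ζ) * Complex.log (-Complex.I * ζ) - (-Complex.I * ζ)) -
    Kq (s₀ - Complex.I * ζ) - cst * Complex.I with hhh
  have hnorm : ∀ ζ : ℂ, ‖s₀ - Complex.I * ζ - s₀‖ = ‖ζ‖ := by
    intro ζ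
    have : s₀ - Complex.I * ζ - s₀ = -(Complex.I * ζ) := by ring
    rw [this, norm_neg, norm_mul, Complex.norm_I, one_mul]
  have hre1 : ∀ ζ : ℂ, (-Complex.I * ζ).re = ζ.im := by
    intro ζ
    simp
  have hre2 : ∀ ζ : ℂ, (τ₀ * Complex.I - Complex.I * ζ).re = ζ.im := by
    intro ζ
    simp
  have hhc : ContinuousOn hh {ζ | ‖ζ‖ < a ∧ 0 ≤ ζ.im} := by
    have c1 : ContinuousOn (fun ζ : ℂ => HP (cc P E) (τ₀ * Complex.I - Complex.I * ζ))
        {ζ | ‖ζ‖ < a ∧ 0 ≤ ζ.im} := by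
      refine (continuousOn_HP h.block).comp (by fun_prop) ?_
      rintro ζ ⟨-, hζ⟩
      show 0 ≤ (τ₀ * Complex.I - Complex.I * ζ).re
      rw [hre2]
      exact hζ
    have c2 : ContinuousOn (fun ζ : ℂ => (-Complex.I * ζ) * Complex.log (-Complex.I * ζ))
        {ζ | ‖ζ‖ < a ∧ 0 ≤ ζ.im} := by
      refine cont_mul_log.comp (f := fun ζ : ℂ => -Complex.I * ζ) (by fun_prop) ?_
      rintro ζ ⟨-, hζ⟩
      show 0 ≤ (-Complex.I * ζ).re
      rw [hre1]
      exact hζ
    have c3 : ContinuousOn (fun ζ : ℂ => Kq (s₀ - Complex.I * ζ)) {ζ | ‖ζ‖ < a ∧ 0 ≤ ζ.im} := by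
      rintro ζ ⟨hζ, -⟩
      have h1 : ContinuousAt Kq (s₀ - Complex.I * ζ) :=
        (hKq' _ (by rw [hnorm]; exact hζ)).continuousAt
      have h2 : ContinuousAt (fun ζ : ℂ => s₀ - Complex.I * ζ) ζ := by fun_prop
      exact (ContinuousAt.comp (f := fun ζ : ℂ => s₀ - Complex.I * ζ) (g := Kq) h1 h2).continuousWithinAt
    exact ((c1.sub (continuousOn_const.mul (c2.sub (by fun_prop)))).sub c3).sub continuousOn_const
  have hhd' : ∀ ζ : ℂ, ‖ζ‖ < a → 0 < ζ.im → HasDerivAt hh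
      (-Complex.I * (MP (cc P E) (s₀ - Complex.I * ζ - 1) - ν * Complex.log (-Complex.I * ζ) -
        q (s₀ - Complex.I * ζ))) ζ := by
    intro ζ hζ1 hζ2
    have d0 : HasDerivAt (fun ζ : ℂ => -Complex.I * ζ) (-Complex.I) ζ := by
      simpa using (hasDerivAt_id ζ).const_mul (-Complex.I)
    have d0' : HasDerivAt (fun ζ : ℂ => Complex.I * ζ) (Complex.I) ζ := by
      simpa using (hasDerivAt_id ζ).const_mul (Complex.I)
    have d1 : HasDerivAt (fun ζ : ℂ => HP (cc P E) (τ₀ * Complex.I - Complex.I * ζ))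
        (MP (cc P E) (τ₀ * Complex.I - Complex.I * ζ) * -Complex.I) ζ := by
      have e1 : HasDerivAt (HP (cc P E)) (MP (cc P E) (τ₀ * Complex.I - Complex.I * ζ))
          (τ₀ * Complex.I - Complex.I * ζ) := hasDerivAt_HP h.block (by rw [hre2]; exact hζ2)
      exact HasDerivAt.comp (h₂ := HP (cc P E)) (h := fun ζ : ℂ => τ₀ * Complex.I - Complex.I * ζ) ζ e1
        (by simpa using d0'.const_sub (τ₀ * Complex.I))
    have hsl : -Complex.I * ζ ∈ Complex.slitPlane := by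
      rw [Complex.mem_slitPlane_iff]
      left
      rw [hre1]
      exact hζ2
    have hne : -Complex.I * ζ ≠ 0 := Complex.slitPlane_ne_zero hsl
    have d2 : HasDerivAt (fun ζ : ℂ => (-Complex.I * ζ) * Complex.log (-Complex.I * ζ) -
        (-Complex.I * ζ)) (-Complex.I * Complex.log (-Complex.I * ζ)) ζ := by
      refine ((d0.mul (d0.clog hsl)).sub d0).congr_deriv ?_
      have hζ0 : ζ ≠ 0 := by
        rintro rfl
        simp at hne
      field_simp
      ring
    have d3 : HasDerivAt (fun ζ : ℂ => Kq (s₀ - Complex.I * ζ)) (q (s₀ - Complex.I * ζ) * -Complex.I) ζ := by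
      have e1 : HasDerivAt Kq (q (s₀ - Complex.I * ζ)) (s₀ - Complex.I * ζ) :=
        hKq' _ (by rw [hnorm]; exact hζ1)
      exact HasDerivAt.comp (h₂ := Kq) (h := fun ζ : ℂ => s₀ - Complex.I * ζ) ζ e1
        (by simpa using d0'.const_sub s₀)
    refine (((d1.sub (d2.const_mul (ν : ℂ))).sub d3).sub_const (cst * Complex.I)).congr_deriv ?_
    have e1 : s₀ - Complex.I * ζ - 1 = τ₀ * Complex.I - Complex.I * ζ := by
      rw [hs₀]
      ring
    rw [e1]
    ring
  have hhd : DifferentiableOn ℂ hh {ζ | ‖ζ‖ < a ∧ 0 < ζ.im} := fun ζ hζ =>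
    (hhd' ζ hζ.1 hζ.2).differentiableAt.differentiableWithinAt
  have hhr : ∀ x : ℝ, |x| < a → (hh x).im = 0 := by
    intro x hx
    have e1 : (τ₀ * Complex.I - Complex.I * x : ℂ) = ((τ₀ - x : ℝ) : ℂ) * Complex.I := by
      push_cast
      ring
    have e2 : (-Complex.I * x : ℂ) = ((-x : ℝ) : ℂ) * Complex.I := by
      push_cast
      ring
    have e3 : (s₀ - Complex.I * x : ℂ) = 1 + ((τ₀ - x : ℝ) : ℂ) * Complex.I := by
      rw [hs₀]
      push_cast
      ring
    simp only [hhh]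
    rw [e1, e2, e3]
    -- the integral
    have i1 := (integral_edge h.block (tendsto_Gr h) τ₀ (τ₀ - x)).2
    have hmem : ∀ τ ∈ Set.uIcc τ₀ (τ₀ - x), |τ - τ₀| < a := by
      intro τ hτ
      have := Set.abs_sub_left_of_mem_uIcc hτ
      refine lt_of_le_of_lt this ?_
      have e4 : τ₀ - x - τ₀ = -x := by ring
      rw [e4, abs_neg]
      exact hx
    have i2 : ∫ τ in τ₀..(τ₀ - x), Gr P E τ =
        ∫ τ in τ₀..(τ₀ - x), (ν * Real.log (τ - τ₀) + (q (1 + τ * Complex.I)).re) := by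
      refine intervalIntegral.integral_congr_ae ?_
      filter_upwards [hline] with τ hτ hτ2
      exact hτ (hmem τ (Set.uIoc_subset_uIcc hτ2))
    have hqc : ContinuousOn (fun τ : ℝ => (q (1 + τ * Complex.I)).re) (Set.uIcc τ₀ (τ₀ - x)) := by
      intro τ hτ
      have h1 : ContinuousAt q (1 + τ * Complex.I) := by
        refine (hqa _ ?_).continuousAt
        have e4 : (1 + τ * Complex.I : ℂ) - s₀ = ((τ - τ₀ : ℝ) : ℂ) * Complex.I := by
          rw [hs₀]
          push_cast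
          ring
        rw [e4, norm_mul, Complex.norm_I, mul_one, Complex.norm_real, Real.norm_eq_abs]
        exact hmem τ hτ
      have h2 : ContinuousAt (fun τ : ℝ => (1 + τ * Complex.I : ℂ)) τ := by fun_prop
      have h3 : ContinuousAt (fun τ : ℝ => q (1 + τ * Complex.I)) τ :=
        ContinuousAt.comp (f := fun τ : ℝ => (1 + τ * Complex.I : ℂ)) (g := q) h1 h2
      exact (Complex.continuous_re.continuousAt.comp h3).continuousWithinAt
    have i3 : ∫ τ in τ₀..(τ₀ - x), Real.log (τ - τ₀) = (-x) * Real.log (-x) - (-x) := by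
      rw [intervalIntegral.integral_comp_sub_right (fun τ => Real.log τ), sub_self, integral_log_from_zero]
      have e4 : τ₀ - x - τ₀ = -x := by ring
      rw [e4]
    have i4 : ∫ τ in τ₀..(τ₀ - x), (q (1 + τ * Complex.I)).re =
        (Kq (1 + ((τ₀ - x : ℝ) : ℂ) * Complex.I)).im - (Kq s₀).im := by
      have h1 : ∀ τ ∈ Set.uIcc τ₀ (τ₀ - x), HasDerivAt (fun τ : ℝ => (Kq (1 + τ * Complex.I)).im)
          (q (1 + τ * Complex.I)).re τ := by
        intro τ hτ
        have e4 : (1 + τ * Complex.I : ℂ) - s₀ = ((τ - τ₀ : ℝ) : ℂ) * Complex.I := by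
          rw [hs₀]
          push_cast
          ring
        have h2 : HasDerivAt Kq (q (1 + τ * Complex.I)) (1 + τ * Complex.I) := by
          refine hKq' _ ?_
          rw [e4, norm_mul, Complex.norm_I, mul_one, Complex.norm_real, Real.norm_eq_abs]
          exact hmem τ hτ
        have h3 : HasDerivAt (fun τ : ℝ => (1 + τ * Complex.I : ℂ)) Complex.I τ := by
          simpa using ((Complex.ofRealCLM.hasDerivAt (x := τ)).mul_const Complex.I).const_add 1
        have h4 : HasDerivAt (fun τ : ℝ => Kq (1 + τ * Complex.I))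
            (q (1 + τ * Complex.I) * Complex.I) τ :=
          HasDerivAt.comp (h₂ := Kq) (h := fun τ : ℝ => (1 + τ * Complex.I : ℂ)) τ h2 h3
        have h5 : HasDerivAt (fun τ : ℝ => (Kq (1 + τ * Complex.I)).im)
            (q (1 + τ * Complex.I) * Complex.I).im τ :=
          Complex.imCLM.hasFDerivAt.comp_hasDerivAt τ h4
        rwa [Complex.mul_I_im] at h5
      rw [intervalIntegral.integral_eq_sub_of_hasDerivAt h1 hqc.intervalIntegrable]
    have hlogint : IntervalIntegrable (fun τ => Real.log (τ - τ₀)) volume τ₀ (τ₀ - x) := by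
      have h1 := (intervalIntegral.intervalIntegrable_log' (a := 0) (b := -x)).comp_sub_right τ₀
      rw [zero_add, neg_add_eq_sub] at h1
      exact h1
    rw [i2, intervalIntegral.integral_add (hlogint.const_mul _) hqc.intervalIntegrable,
      intervalIntegral.integral_const_mul, i3, i4] at i1
    have e5 : ((ν : ℂ) * (((-x : ℝ) : ℂ) * Complex.I * Complex.log (((-x : ℝ) : ℂ) * Complex.I) -
        ((-x : ℝ) : ℂ) * Complex.I)).im = ν * ((-x) * Real.log (-x) - (-x)) := by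
      have e6 : (ν : ℂ) = ((ν : ℝ) : ℂ) := by push_cast; rfl
      rw [e6, Complex.im_ofReal_mul, im_mul_log]
    rw [Complex.sub_im, Complex.sub_im, Complex.sub_im, e5, Complex.mul_I_im, Complex.ofReal_re, hcst]
    linarith
  obtain ⟨H, hHd, hHe⟩ := Pool.Agent.H18R3.refl hhc hhd hhr
  have hHa : AnalyticAt ℂ (deriv H) 0 := by
    have h1 : AnalyticAt ℂ H 0 := hHd.analyticAt (Metric.ball_mem_nhds _ ha0)
    exact h1.deriv
  refine ⟨fun s => Bf P E s * (s - s₀) ^ ν *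
    Complex.exp (Complex.I * deriv H (Complex.I * (s - s₀)) + q s + rho P E s), ?_, ?_⟩
  · refine (hBm.mul (MeromorphicAt.zpow ?_ ν)).mul (AnalyticAt.meromorphicAt ?_)
    · exact (analyticAt_id.sub analyticAt_const).meromorphicAt
    · refine AnalyticAt.cexp ?_
      have h1 : AnalyticAt ℂ (fun s => deriv H (Complex.I * (s - s₀))) s₀ := by
        refine AnalyticAt.fun_comp (g := deriv H) (f := fun s => Complex.I * (s - s₀)) ?_
          (analyticAt_const.mul (analyticAt_id.sub analyticAt_const))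
        simp only [sub_self, mul_zero]
        exact hHa
      exact ((analyticAt_const.mul h1).add (hqa s₀ (by simpa using ha0))).add hρ
  · filter_upwards [Metric.ball_mem_nhds s₀ ha0] with s hs hs1
    rw [mem_ball_iff_norm] at hs
    rw [LQ_eq h hs1, mul_assoc]
    congr 1
    set ζ := Complex.I * (s - s₀) with hζ
    have hζn : ‖ζ‖ < a := by
      rw [hζ, norm_mul, Complex.norm_I, one_mul]
      exact hs
    have hζi : 0 < ζ.im := by
      rw [hζ, Complex.I_mul_im, Complex.sub_re, hs₀re]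
      linarith
    have hback : s₀ - Complex.I * ζ = s := by
      rw [hζ, ← mul_assoc, Complex.I_mul_I]
      ring
    have hback2 : -Complex.I * ζ = s - s₀ := by
      rw [hζ, ← mul_assoc]
      rw [neg_mul, Complex.I_mul_I]
      ring
    have h1 : deriv H ζ = -Complex.I * (MP (cc P E) (s - 1) - ν * Complex.log (s - s₀) - q s) := by
      have h2 : H =ᶠ[𝓝 ζ] hh := by
        have o1 : IsOpen {ζ : ℂ | ‖ζ‖ < a ∧ 0 < ζ.im} :=
          (isOpen_lt continuous_norm continuous_const).inter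
            (isOpen_lt continuous_const Complex.continuous_im)
        filter_upwards [o1.mem_nhds ⟨hζn, hζi⟩] with w hw
        exact hHe w hw.1 hw.2.le
      rw [h2.deriv_eq, (hhd' ζ hζn hζi).deriv, hback, hback2]
    rw [h1]
    have hne : s - s₀ ≠ 0 := by
      intro h2
      rw [hζ, h2, mul_zero, Complex.zero_im] at hζi
      exact lt_irrefl _ hζi
    have h3 : (s - s₀) ^ ν = Complex.exp (ν * Complex.log (s - s₀)) := by
      rw [Complex.exp_int_mul, Complex.exp_log hne]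
    rw [h3, ← Complex.exp_add]
    congr 1
    have h4 : Complex.I * (-Complex.I * (MP (cc P E) (s - 1) - ν * Complex.log (s - s₀) - q s)) =
        MP (cc P E) (s - 1) - ν * Complex.log (s - s₀) - q s := by
      rw [← mul_assoc, mul_neg, Complex.I_mul_I, neg_neg, one_mul]
    rw [h4]
    ring

end Pool.Agent.Y774.SM
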