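import Pool.Agent.Y774.MD.Cont

/-!
# The primitive of the logarithm is continuous up to the edge
-/

set_option autoImplicit false

namespace Pool.Agent.Y774.SM

open Filter Topology MeasureTheory Finset Pool.Agent.W350.Edge Polynomial Pool.Agent.Y774.MD

/-- The sum `∑ ‖c_p‖ / log p` converges. -/
lemma summable_log {c : ℕ → ℂ} {C : ℝ} (h : BlockBound c C) :
    Summable fun p : ℕ => if p.Prime then ‖c p‖ / Real.log p else 0 := by
  classical
  have hC := h.nonneg
  have hsq : Summable fun k : ℕ => 1 / (k : ℝ) ^ 2 := Real.summable_one_div_nat_pow.2 (by norm_num)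
  refine summable_of_sum_le (c := ‖c 2‖ / Real.log 2 + C * ∑' k : ℕ, 1 / (k : ℝ) ^ 2)
    (fun p => ?_) fun F => ?_
  · simp only
    split_ifs with hp
    · exact div_nonneg (norm_nonneg _) (Real.log_nonneg (by exact_mod_cast hp.one_le))
    · exact le_rfl
  · rw [← sum_filter]
    set F' := F.filter Nat.Prime with hF'
    have hF'p : ∀ p ∈ F', p.Prime := fun p hp => (mem_filter.1 hp).2
    have hlog : ∀ p ∈ F', 0 < Real.log p := fun p hp =>
      Real.log_pos (by exact_mod_cast (hF'p p hp).one_lt)
    rw [← sum_filter_add_sum_filter_not F' (fun p => lg p = 0)]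
    refine add_le_add ?_ ?_
    · have h1 : F'.filter (fun p => lg p = 0) ⊆ {2} := by
        intro p hp
        rw [mem_filter] at hp
        rw [mem_singleton]
        have h2 := lt_lg p
        rw [hp.2] at h2
        have hp0 : (0 : ℝ) < p := by exact_mod_cast (hF'p p hp.1).pos
        have h3 : (p : ℝ) < Real.exp 1 := by
          rw [← Real.log_lt_iff_lt_exp hp0]
          simpa using h2
        have h4 : (p : ℝ) < 3 := by
          have := Real.exp_one_lt_d9
          linarith
        have h5 : p < 3 := by exact_mod_cast h4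
        have := (hF'p p hp.1).two_le
        omega
      have h2 : ∀ p ∈ ({2} : Finset ℕ), 0 ≤ ‖c p‖ / Real.log p := by
        intro p hp
        rw [mem_singleton] at hp
        subst hp
        exact div_nonneg (norm_nonneg _) (Real.log_nonneg (by norm_num))
      refine (sum_le_sum_of_subset_of_nonneg h1 fun p hp _ => h2 p hp).trans ?_
      rw [sum_singleton]
      norm_num
    · set G := F'.filter (fun p => ¬ lg p = 0) with hG
      have hmaps : ∀ p ∈ G, lg p ∈ G.image lg := fun p hp => mem_image_of_mem _ hp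
      rw [← sum_fiberwise_of_maps_to hmaps]
      have h1 : ∀ k ∈ G.image lg, ∑ p ∈ G with lg p = k, ‖c p‖ / Real.log p ≤
          C * (1 / (k : ℝ) ^ 2) := by
        intro k hk
        rw [mem_image] at hk
        obtain ⟨p₀, hp₀, hpk⟩ := hk
        have hk1 : 1 ≤ k := by
          rw [hG, mem_filter] at hp₀
          omega
        have hk0 : (0 : ℝ) < k := by exact_mod_cast hk1
        calc ∑ p ∈ G with lg p = k, ‖c p‖ / Real.log p
            ≤ ∑ p ∈ G with lg p = k, ‖c p‖ / k := by
              refine sum_le_sum fun p hp => ?_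
              rw [mem_filter, hG, mem_filter] at hp
              have h2 := lg_le (hF'p p hp.1.1).one_le
              rw [hp.2] at h2
              exact div_le_div_of_nonneg_left (norm_nonneg _) hk0 h2
          _ = (∑ p ∈ G with lg p = k, ‖c p‖) / k := by rw [sum_div]
          _ ≤ (C / k) / k := by
              refine div_le_div_of_nonneg_right (h k hk1 _ fun p hp => ?_) hk0.le
              rw [mem_filter, hG, mem_filter] at hp
              exact ⟨hF'p p hp.1.1, hp.2⟩
          _ = _ := by
              field_simp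
      refine (sum_le_sum h1).trans ?_
      rw [← mul_sum]
      exact mul_le_mul_of_nonneg_left (hsq.sum_le_tsum _ fun k _ => by positivity) hC

/-- The terms of the primitive. -/
noncomputable def tp (c : ℕ → ℂ) (p : ℕ) (z : ℂ) : ℂ :=
  if p.Prime then c p * Complex.exp (-z * Real.log p) * (-(1 / (Real.log p : ℂ))) else 0

/-- The primitive. -/
noncomputable def HP (c : ℕ → ℂ) (z : ℂ) : ℂ := ∑' p, tp c p z

/-- The main part of the logarithm. -/
noncomputable def MP (c : ℕ → ℂ) (z : ℂ) : ℂ :=
  ∑' p : ℕ, if p.Prime then Complex.exp (-z * Real.log p) * c p else 0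

lemma norm_tp_le (c : ℕ → ℂ) (p : ℕ) {z : ℂ} (hz : 0 ≤ z.re) :
    ‖tp c p z‖ ≤ if p.Prime then ‖c p‖ / Real.log p else 0 := by
  unfold tp
  split_ifs with hp
  · have hl : 0 < Real.log p := Real.log_pos (by exact_mod_cast hp.one_lt)
    have h1 : ‖Complex.exp (-z * Real.log p)‖ ≤ 1 := by
      rw [Complex.norm_exp, Complex.mul_re, Complex.ofReal_re, Complex.ofReal_im, mul_zero,
        sub_zero, Complex.neg_re, Real.exp_le_one_iff]
      nlinarith
    rw [norm_mul, norm_mul, norm_neg, norm_div, norm_one, Complex.norm_real,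
      Real.norm_of_nonneg hl.le]
    calc ‖c p‖ * ‖Complex.exp (-z * Real.log p)‖ * (1 / Real.log p)
        ≤ ‖c p‖ * 1 * (1 / Real.log p) := by gcongr
      _ = _ := by ring
  · rw [norm_zero]

lemma hasDerivAt_tp (c : ℕ → ℂ) (p : ℕ) (z : ℂ) :
    HasDerivAt (tp c p) (if p.Prime then Complex.exp (-z * Real.log p) * c p else 0) z := by
  unfold tp
  split_ifs with hp
  · have hl : 0 < Real.log p := Real.log_pos (by exact_mod_cast hp.one_lt)
    have hl' : (Real.log p : ℂ) ≠ 0 := by exact_mod_cast hl.ne'
    have h1 : HasDerivAt (fun z : ℂ => Complex.exp (-z * Real.log p))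
        (Complex.exp (-z * Real.log p) * (-1 * Real.log p)) z :=
      ((hasDerivAt_id z).neg.mul_const (Real.log p : ℂ)).cexp
    have h2 := (h1.const_mul (c p)).mul_const (-(1 / (Real.log p : ℂ)))
    refine h2.congr_deriv ?_
    field_simp
  · exact hasDerivAt_const _ _

variable {c : ℕ → ℂ} {C : ℝ}

lemma continuousOn_HP (h : BlockBound c C) : ContinuousOn (HP c) {z : ℂ | 0 ≤ z.re} := by
  unfold HP
  refine continuousOn_tsum (fun p => ?_) (summable_log h) fun p z hz => norm_tp_le c p hz
  intro z _
  exact (hasDerivAt_tp c p z).continuousAt.continuousWithinAt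

lemma hasDerivAt_HP (h : BlockBound c C) {z : ℂ} (hz : 0 < z.re) :
    HasDerivAt (HP c) (MP c z) z := by
  have hU : IsOpen {z : ℂ | 0 < z.re} := isOpen_lt continuous_const Complex.continuous_re
  have hd : ∀ p, DifferentiableOn ℂ (tp c p) {z : ℂ | 0 < z.re} := fun p w _ =>
    (hasDerivAt_tp c p w).differentiableAt.differentiableWithinAt
  have hb : ∀ (p : ℕ) (w : ℂ), w ∈ {z : ℂ | 0 < z.re} →
      ‖tp c p w‖ ≤ if p.Prime then ‖c p‖ / Real.log p else 0 := fun p w hw =>
    norm_tp_le c p (le_of_lt hw)
  have h1 := Complex.differentiableOn_tsum_of_summable_norm (summable_log h) hd hU hb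
  have h2 := Complex.hasSum_deriv_of_summable_norm (summable_log h) hd hU hb hz
  have h3 : HasDerivAt (HP c) (deriv (HP c) z) z :=
    ((h1 z hz).differentiableAt (hU.mem_nhds hz)).hasDerivAt
  have h4 : deriv (HP c) z = MP c z := by
    unfold HP MP
    rw [← h2.tsum_eq]
    exact tsum_congr fun p => (hasDerivAt_tp c p z).deriv
  rwa [h4] at h3

/-- The real parts of the terms on the edge. -/
noncomputable def rr (c : ℕ → ℂ) (p : ℕ) (τ : ℝ) : ℝ :=
  (c p * Complex.exp (-(τ * Real.log p) * Complex.I)).re

lemma continuous_rr (c : ℕ → ℂ) (p : ℕ) : Continuous (rr c p) := by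
  unfold rr
  exact Complex.continuous_re.comp (by fun_prop)

lemma approx_rr (h : BlockBound c C) : Approx (rr c) c C (fun _ => 0) ∅ where
  bb := h
  he := summable_zero
  e0 := fun _ => le_rfl
  meas := fun p => (continuous_rr c p).measurable
  hr := fun p _ _ τ => by simp [rr]

lemma deriv_edge (c : ℕ → ℂ) {p : ℕ} (hp : p.Prime) (τ : ℝ) :
    HasDerivAt (fun τ : ℝ => (tp c p (τ * Complex.I)).im) (rr c p τ) τ := by
  have h1 := hasDerivAt_tp c p (τ * Complex.I)
  rw [if_pos hp] at h1
  have h2 : HasDerivAt (fun τ : ℝ => (τ : ℂ) * Complex.I) Complex.I τ := by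
    simpa using (Complex.ofRealCLM.hasDerivAt (x := τ)).mul_const Complex.I
  have h3 : HasDerivAt (fun τ : ℝ => tp c p (τ * Complex.I))
      (Complex.exp (-(τ * Complex.I) * Real.log p) * c p * Complex.I) τ :=
    HasDerivAt.comp (h₂ := tp c p) (h := fun τ : ℝ => (τ : ℂ) * Complex.I) τ h1 h2
  have h4 : HasDerivAt (fun τ : ℝ => (tp c p (τ * Complex.I)).im)
      (Complex.exp (-(τ * Complex.I) * Real.log p) * c p * Complex.I).im τ := by
    exact Complex.imCLM.hasFDerivAt.comp_hasDerivAt τ h3
  refine h4.congr_deriv ?_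
  unfold rr
  rw [Complex.mul_I_im, mul_comm (c p)]
  congr 3
  ring

/-- The primitive on the edge is the integral. -/
lemma integral_edge (h : BlockBound c C) {Gr : ℝ → ℝ}
    (hG : ∀ᵐ τ : ℝ, Tendsto (fun x => rS (rr c) x τ) atTop (𝓝 (Gr τ))) (a b : ℝ) :
    IntervalIntegrable Gr volume a b ∧
      ∫ τ in a..b, Gr τ = (HP c (b * Complex.I)).im - (HP c (a * Complex.I)).im := by
  have hA := approx_rr h
  have hGm : AEMeasurable Gr := ae_measurable_of_tendsto hA.meas hG
  have hcont : ∀ x, Continuous (rS (rr c) x) := by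
    intro x
    unfold rS
    exact continuous_finsetSum _ fun p _ => continuous_rr c p
  -- integrability on unit intervals
  have hint1 : ∀ (η : ℝ), 0 < η → ∃ J₀, ∀ J, J₀ ≤ J → ∀ m : ℝ,
      IntegrableOn (fun τ => Gr τ - rS (rr c) (NN 1 J) τ) (Set.Ioc m (m + 1)) ∧
      ∫ τ in Set.Ioc m (m + 1), ‖Gr τ - rS (rr c) (NN 1 J) τ‖ ≤ η := by
    intro η hη
    obtain ⟨J₀, hJ₀⟩ := hA.tail Gr hG hη
    refine ⟨J₀, fun J hJ m => ?_⟩
    have h1 := hJ₀ J hJ m
    have hm : AEStronglyMeasurable (fun τ => Gr τ - rS (rr c) (NN 1 J) τ)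
        (volume.restrict (Set.Ioc m (m + 1))) :=
      (hGm.sub (hcont _).measurable.aemeasurable).aestronglyMeasurable.restrict
    have h2 : IntegrableOn (fun τ => Gr τ - rS (rr c) (NN 1 J) τ) (Set.Ioc m (m + 1)) :=
      ⟨hm, lt_of_le_of_lt h1 ENNReal.ofReal_lt_top⟩
    refine ⟨h2, ?_⟩
    rw [← ofReal_integral_norm_eq_lintegral_enorm h2, ENNReal.ofReal_le_ofReal_iff hη.le] at h1
    exact h1
  have hii : ∀ J, (∀ m : ℝ, IntegrableOn (fun τ => Gr τ - rS (rr c) (NN 1 J) τ)
      (Set.Ioc m (m + 1))) → ∀ a b : ℝ, IntervalIntegrable (fun τ => Gr τ - rS (rr c) (NN 1 J) τ)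
        volume a b := by
    intro J hJ
    have key : ∀ (a : ℝ) (n : ℕ), IntegrableOn (fun τ => Gr τ - rS (rr c) (NN 1 J) τ)
        (Set.Ioc a (a + n)) := by
      intro a n
      induction n with
      | zero => simp
      | succ n ih =>
        have h1 := ih.union (hJ (a + n))
        rw [Set.Ioc_union_Ioc_eq_Ioc (by simp) (by linarith)] at h1
        push_cast
        rwa [← add_assoc]
    intro a b
    wlog hab : a ≤ b generalizing a b
    · exact (this b a (by linarith)).symm
    rw [intervalIntegrable_iff_integrableOn_Ioc_of_le hab]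
    obtain ⟨n, hn⟩ := exists_nat_ge (b - a)
    exact (key a n).mono_set (Set.Ioc_subset_Ioc_right (by linarith))
  have hGi : ∀ a b : ℝ, IntervalIntegrable Gr volume a b := by
    intro a b
    obtain ⟨J, hJ⟩ := hint1 1 one_pos
    have h1 := hii J (fun m => (hJ J le_rfl m).1) a b
    have h2 := h1.add ((hcont (NN 1 J)).intervalIntegrable a b)
    refine h2.congr fun τ _ => ?_
    simp
  refine ⟨hGi a b, ?_⟩
  -- WLOG a ≤ b
  have main : ∀ a b : ℝ, a ≤ b →
      ∫ τ in a..b, Gr τ = (HP c (b * Complex.I)).im - (HP c (a * Complex.I)).im := by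
    intro a b hab
    have hsum : ∀ τ : ℝ, Tendsto (fun x : ℕ => ∑ p ∈ range x, (tp c p (τ * Complex.I)).im) atTop
        (𝓝 (HP c (τ * Complex.I)).im) := by
      intro τ
      have h1 : Summable fun p => tp c p (τ * Complex.I) :=
        Summable.of_norm_bounded (summable_log h) fun p => norm_tp_le c p (by simp)
      have h2 := h1.hasSum.tendsto_sum_nat
      have h3 := (Complex.continuous_im.tendsto _).comp h2
      refine h3.congr fun x => ?_
      simp [Complex.im_sum]
    have hpart : ∀ x : ℕ, ∫ τ in a..b, rS (rr c) x τ =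
        (∑ p ∈ range x, (tp c p (b * Complex.I)).im) - ∑ p ∈ range x, (tp c p (a * Complex.I)).im := by
      intro x
      unfold rS
      rw [intervalIntegral.integral_finsetSum fun p _ => (continuous_rr c p).intervalIntegrable _ _,
        ← sum_sub_distrib, sum_filter]
      refine sum_congr rfl fun p _ => ?_
      split_ifs with hp
      · refine intervalIntegral.integral_eq_sub_of_hasDerivAt (fun τ _ => deriv_edge c hp τ) ?_
        exact (continuous_rr c p).intervalIntegrable _ _
      · simp [tp, hp]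
    have t1 : Tendsto (fun J => ∫ τ in a..b, rS (rr c) (NN 1 J) τ) atTop
        (𝓝 ((HP c (b * Complex.I)).im - (HP c (a * Complex.I)).im)) := by
      have h1 := ((hsum b).comp (tendsto_NN 1)).sub ((hsum a).comp (tendsto_NN 1))
      refine h1.congr fun J => ?_
      exact (hpart _).symm
    have t2 : Tendsto (fun J => ∫ τ in a..b, rS (rr c) (NN 1 J) τ) atTop (𝓝 (∫ τ in a..b, Gr τ)) := by
      rw [Metric.tendsto_atTop]
      intro ε hε
      obtain ⟨n, hn⟩ := exists_nat_ge (b - a)
      obtain ⟨J₀, hJ₀⟩ := hint1 (ε / (2 * (n + 1))) (by positivity)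
      refine ⟨J₀, fun J hJ => ?_⟩
      have h1 := hii J fun m => (hJ₀ J hJ m).1
      have key : ∀ (m : ℕ), ∫ τ in Set.Ioc a (a + m), ‖Gr τ - rS (rr c) (NN 1 J) τ‖ ≤
          m * (ε / (2 * (n + 1))) := by
        intro m
        induction m with
        | zero => simp
        | succ m ih =>
          have e1 : Set.Ioc a (a + (m + 1 : ℕ)) = Set.Ioc a (a + m) ∪ Set.Ioc (a + m) (a + m + 1) := by
            rw [Set.Ioc_union_Ioc_eq_Ioc (by simp) (by linarith)]
            push_cast
            rw [add_assoc]
          have e2 : Disjoint (Set.Ioc a (a + m)) (Set.Ioc (a + m) (a + m + 1)) :=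
            Set.Ioc_disjoint_Ioc_of_le le_rfl
          have e3 : IntegrableOn (fun τ => ‖Gr τ - rS (rr c) (NN 1 J) τ‖) (Set.Ioc a (a + m)) := by
            have := (h1 a (a + m)).norm
            rwa [intervalIntegrable_iff_integrableOn_Ioc_of_le (by simp)] at this
          rw [e1, setIntegral_union e2 measurableSet_Ioc e3 (hJ₀ J hJ _).1.norm]
          push_cast
          have := (hJ₀ J hJ (a + m)).2
          linarith
      rw [dist_comm, Real.dist_eq, ← intervalIntegral.integral_sub (hGi a b)
        ((hcont _).intervalIntegrable a b)]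
      calc |∫ τ in a..b, (Gr τ - rS (rr c) (NN 1 J) τ)|
          ≤ ∫ τ in a..b, ‖Gr τ - rS (rr c) (NN 1 J) τ‖ := by
            rw [← Real.norm_eq_abs]
            exact intervalIntegral.norm_integral_le_integral_norm hab
        _ ≤ ∫ τ in Set.Ioc a (a + n), ‖Gr τ - rS (rr c) (NN 1 J) τ‖ := by
            rw [intervalIntegral.integral_of_le hab]
            refine setIntegral_mono_set ?_ (ae_of_all _ fun _ => norm_nonneg _)
              (Set.Ioc_subset_Ioc_right (by linarith)).eventuallyLE
            have := (h1 a (a + n)).norm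
            rwa [intervalIntegrable_iff_integrableOn_Ioc_of_le (by simp)] at this
        _ ≤ n * (ε / (2 * (n + 1))) := key n
        _ < ε := by
            have hn0 : (0 : ℝ) ≤ n := Nat.cast_nonneg n
            rw [mul_div_assoc', div_lt_iff₀ (by positivity)]
            nlinarith
    exact tendsto_nhds_unique t2 t1
  rcases le_total a b with hab | hab
  · exact main a b hab
  · rw [intervalIntegral.integral_symm, main b a hab]
    ring

end Pool.Agent.Y774.SM
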