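import Pool.Agent.Y774.SM.Prim
import Pool.Agent.Y774.MD.Dicho

/-!
# The remainder of the logarithm is holomorphic across the edge
-/

set_option autoImplicit false

namespace Pool.Agent.Y774.SM

open Filter Topology MeasureTheory Finset Pool.Agent.W350.Edge Polynomial Pool.Agent.Y774.MD

variable {P : ℕ → ℂ[X]} {D : ℕ} {θ C κ : ℝ} {E : Finset ℕ}

lemma small2 (h : IsEuler P D θ C E) (hκ : θ + κ < 1 / 2) {p : ℕ} (hp : p.Prime) (hpE : p ∉ E)
    {s : ℂ} (hs : 1 - κ ≤ s.re) : (p : ℝ) ^ (θ + κ - 1) ≤ 3 / 4 ∧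
      ∀ a ∈ inv (P p), ‖a * (p : ℂ) ^ (-s)‖ ≤ (p : ℝ) ^ (θ + κ - 1) := by
  have hp0 : (0 : ℝ) < p := by exact_mod_cast hp.pos
  have hp1 : (1 : ℝ) ≤ p := by exact_mod_cast hp.one_le
  have hp2 : (2 : ℝ) ≤ p := by exact_mod_cast hp.two_le
  obtain ⟨h0, hd, hz⟩ := h.good p hp hpE
  constructor
  · have h1 : (p : ℝ) ^ (θ + κ - 1) ≤ (p : ℝ) ^ (-(1 / 2) : ℝ) :=
      Real.rpow_le_rpow_of_exponent_le hp1 (by linarith)
    refine h1.trans (le_trans ?_ two_rpow)
    exact Real.rpow_le_rpow_of_nonpos two_pos hp2 (by norm_num)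
  · intro a ha
    have h1 := norm_inv_le h0 (by positivity) hz a ha
    rw [← Real.rpow_neg hp0.le, neg_neg] at h1
    rw [norm_mul, Complex.norm_natCast_cpow_of_pos hp.pos]
    have h2 : θ + κ - 1 = θ + (κ - 1) := by ring
    rw [h2, Real.rpow_add hp0]
    refine mul_le_mul h1 ?_ (by positivity) (by positivity)
    refine Real.rpow_le_rpow_of_exponent_le hp1 ?_
    rw [Complex.neg_re]
    linarith

lemma norm_Rm2 (h : IsEuler P D θ C E) (hκ : θ + κ < 1 / 2) {p : ℕ} (hp : p.Prime) (hpE : p ∉ E)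
    {s : ℂ} (hs : 1 - κ ≤ s.re) : ‖Rm P p s‖ ≤ 2 * D * (p : ℝ) ^ (2 * (θ + κ) - 2) := by
  obtain ⟨h1, h2⟩ := small2 h hκ hp hpE hs
  have hp0 : (0 : ℝ) < p := by exact_mod_cast hp.pos
  have h3 := LG_approx h1 h2
  unfold Rm
  refine h3.trans ?_
  have h4 : ((p : ℝ) ^ (θ + κ - 1)) ^ 2 = (p : ℝ) ^ (2 * (θ + κ) - 2) := by
    rw [← Real.rpow_natCast, ← Real.rpow_mul hp0.le]
    congr 1
    push_cast
    ring
  rw [h4]
  refine mul_le_mul_of_nonneg_right ?_ (by positivity)
  have h5 : (Multiset.card (inv (P p)) : ℝ) ≤ D := by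
    exact_mod_cast (card_inv_le _).trans (h.good p hp hpE).2.1
  linarith

/-- The sum of the remainders. -/
noncomputable def rho (P : ℕ → ℂ[X]) (E : Finset ℕ) (s : ℂ) : ℂ :=
  ∑' n : ℕ, if n.Prime ∧ n ∉ E then Rm P n s else 0

lemma summable_e2 (hκ : θ + κ < 1 / 2) :
    Summable fun p : ℕ => 2 * (D : ℝ) * (p : ℝ) ^ (2 * (θ + κ) - 2) := by
  refine Summable.mul_left _ ?_
  rw [Real.summable_nat_rpow]
  linarith

lemma norm_R_le (h : IsEuler P D θ C E) (hκ : θ + κ < 1 / 2) (n : ℕ) {s : ℂ}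
    (hs : 1 - κ ≤ s.re) :
    ‖(if n.Prime ∧ n ∉ E then Rm P n s else 0)‖ ≤ 2 * D * (n : ℝ) ^ (2 * (θ + κ) - 2) := by
  split_ifs with h1
  · exact norm_Rm2 h hκ h1.1 h1.2 hs
  · rw [norm_zero]
    positivity

lemma summable_R (h : IsEuler P D θ C E) (hκ : θ + κ < 1 / 2) {s : ℂ} (hs : 1 - κ ≤ s.re) :
    Summable fun n : ℕ => if n.Prime ∧ n ∉ E then Rm P n s else 0 :=
  Summable.of_norm_bounded (summable_e2 hκ) fun n => norm_R_le h hκ n hs

lemma differentiableOn_rho (h : IsEuler P D θ C E) (hκ : θ + κ < 1 / 2) :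
    DifferentiableOn ℂ (rho P E) {s : ℂ | 1 - κ < s.re} := by
  have hU : IsOpen {s : ℂ | 1 - κ < s.re} := isOpen_lt continuous_const Complex.continuous_re
  refine Complex.differentiableOn_tsum_of_summable_norm (summable_e2 (D := D) hκ) (fun n => ?_) hU
    fun n s hs => norm_R_le h hκ n (le_of_lt hs)
  by_cases hn : n.Prime ∧ n ∉ E
  · simp only [if_pos hn]
    intro s hs
    have hn0 : (0 : ℝ) < n := by exact_mod_cast hn.1.pos
    have hn1 : (1 : ℝ) < n := by exact_mod_cast hn.1.one_lt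
    obtain ⟨h0, hd, hz⟩ := h.good n hn.1 hn.2
    have hcp : DifferentiableAt ℂ (fun s : ℂ => (n : ℂ) ^ (-s)) s := by
      have h1 : (fun s : ℂ => (n : ℂ) ^ (-s)) = fun s => Complex.exp (-s * Real.log n) := by
        funext s
        exact natCast_cpow_eq hn.1.pos s
      rw [h1]
      fun_prop
    have hb : 0 < (n : ℝ) ^ (-θ) := by positivity
    have hmem : (n : ℂ) ^ (-s) ∈ Metric.ball (0 : ℂ) ((n : ℝ) ^ (-θ)) := by
      rw [mem_ball_zero_iff, Complex.norm_natCast_cpow_of_pos hn.1.pos]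
      refine Real.rpow_lt_rpow_of_exponent_lt hn1 ?_
      rw [Complex.neg_re]
      have : 1 - κ < s.re := hs
      linarith
    have h1 : DifferentiableAt ℂ (LG (inv (P n))) ((n : ℂ) ^ (-s)) :=
      (analytic_LG (norm_inv_le h0 hb hz) hb _ hmem).differentiableAt
    unfold Rm
    refine (DifferentiableAt.sub ?_ ((differentiableAt_const _).mul hcp)).differentiableWithinAt
    exact DifferentiableAt.comp (f := fun s : ℂ => (n : ℂ) ^ (-s)) (g := LG (inv (P n))) s h1 hcp
  · simp only [if_neg hn]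
    exact differentiableOn_const _

/-- The bad factors. -/
noncomputable def Bf (P : ℕ → ℂ[X]) (E : Finset ℕ) (s : ℂ) : ℂ := ∏ n ∈ E.filter Nat.Prime, fac P n s

/-- The decomposition of the Euler product. -/
lemma LQ_eq (h : IsEuler P D θ C E) {s : ℂ} (hs : 1 < s.re) :
    LQ P s = Bf P E s * Complex.exp (MP (cc P E) (s - 1) + rho P E s) := by
  have h1 : LQ P s = (∏ n ∈ E.filter Nat.Prime, fac P n s) * Complex.exp (∑' n, SS P E s n) :=
    (h.hasProd hs).tprod_eq
  rw [h1]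
  unfold Bf
  congr 2
  have hz : 0 < (s - 1).re := by simpa using hs
  have hm : Summable fun p : ℕ => if p.Prime then Complex.exp (-(s - 1) * Real.log p) * cc P E p
      else 0 := by
    refine Summable.of_norm_bounded (h.block.summable hz) fun p => ?_
    split_ifs with hp
    · rw [norm_mul, Complex.norm_exp, Complex.mul_re, Complex.ofReal_re, Complex.ofReal_im, mul_zero,
        sub_zero, Complex.neg_re]
    · simp
  have hr := summable_R (κ := 0) h (by rw [add_zero]; exact h.hθ) (s := s) (by linarith)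
  unfold MP rho
  rw [← hm.tsum_add hr]
  refine tsum_congr fun n => ?_
  unfold SS
  by_cases hn : n.Prime
  · by_cases hnE : n ∈ E
    · rw [if_neg (by tauto), if_pos hn, if_neg (by tauto)]
      unfold cc
      rw [if_pos hnE]
      simp
    · rw [if_pos ⟨hn, hnE⟩, if_pos hn, if_pos ⟨hn, hnE⟩]
      have h3 := h.LG_eq hn hnE (s - 1) 0
      have h4 : 1 + (s - 1) + ((0 : ℝ) : ℂ) * Complex.I = s := by
        push_cast
        ring
      rw [h4] at h3
      rw [h3]
      simp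
  · rw [if_neg (by tauto), if_neg hn, if_neg (by tauto)]
    simp

/-- The real part of the main part of the logarithm on the edge. -/
noncomputable def Gr (P : ℕ → ℂ[X]) (E : Finset ℕ) (τ : ℝ) : ℝ :=
  Real.log (eabs P τ) - (∑ n ∈ E.filter Nat.Prime, rl P n τ) - (rho P E (1 + τ * Complex.I)).re

lemma tendsto_Gr (h : IsEuler P D θ C E) :
    ∀ᵐ τ : ℝ, Tendsto (fun x => rS (rr (cc P E)) x τ) atTop (𝓝 (Gr P E τ)) := by
  classical
  filter_upwards [h.edge'] with τ ⟨_, hτ⟩
  set E' := E.filter Nat.Prime with hE'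
  have hr := summable_R (κ := 0) h (by rw [add_zero]; exact h.hθ) (s := 1 + τ * Complex.I) (by simp)
  have t1 := (Complex.continuous_re.tendsto _).comp hr.hasSum.tendsto_sum_nat
  have t2 : Tendsto (fun x : ℕ => ∑ n ∈ range x, if n ∈ E' then rl P n τ else 0) atTop
      (𝓝 (∑ n ∈ E', rl P n τ)) := by
    have h1 : HasSum (fun n : ℕ => if n ∈ E' then rl P n τ else 0)
        (∑ n ∈ E', if n ∈ E' then rl P n τ else 0) :=
      hasSum_sum_of_ne_finset_zero fun n hn => by rw [if_neg hn]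
    have h2 : (∑ n ∈ E', if n ∈ E' then rl P n τ else 0) = ∑ n ∈ E', rl P n τ :=
      sum_congr rfl fun n hn => by rw [if_pos hn]
    rw [h2] at h1
    exact h1.tendsto_sum_nat
  refine ((hτ.sub t2).sub t1).congr fun x => ?_
  simp only [Function.comp_apply, Complex.re_sum]
  unfold rS
  rw [sum_filter, sum_filter, ← sum_sub_distrib, ← sum_sub_distrib]
  refine sum_congr rfl fun n _ => ?_
  by_cases hn : n.Prime
  · by_cases hnE : n ∈ E
    · rw [if_pos hn, if_pos (mem_filter.2 ⟨hnE, hn⟩), if_neg (by tauto), if_pos hn]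
      simp [rr, cc, hnE]
    · rw [if_pos hn, if_neg (fun h => hnE (mem_filter.1 h).1), if_pos ⟨hn, hnE⟩, if_pos hn]
      have hre : 1 ≤ (1 + (τ : ℂ) * Complex.I).re := by simp
      have h2 := h.LG_eq hn hnE 0 τ
      unfold rl
      rw [h.fac_eq hn hnE hre, Complex.norm_exp, Real.log_exp]
      rw [add_zero] at h2
      rw [h2, Complex.add_re, neg_zero, zero_mul, Complex.exp_zero, one_mul]
      unfold rr
      ring
  · rw [if_neg hn, if_neg (fun h => hn (mem_filter.1 h).2), if_neg (by tauto), if_neg hn]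
    simp

end Pool.Agent.Y774.SM
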